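import Pool.Agent.FormPer.Gad

/-!
The matrix of the values of the one-sided gadget is nonsingular in characteristic zero.
-/

namespace Pool.Agent.FormPer

open MvPolynomial Finset
open Pool.Agent.H10.PerSL Pool.Agent.H10.PerSL.Gad
open scoped Nat

universe u v w

section zero

variable {L B : Type v} {R : Type w} [Fintype L] [DecidableEq L] [Fintype B] [DecidableEq B]
  [CommRing R]

/-- The zero-one point of a subset. -/
def pt01 (R : Type w) [CommRing R] (S : Finset L) (i : L) : R := if i ∈ S then 1 else 0

omit [Fintype L] in
theorem update_pt01_one (S : Finset L) (i : L) :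
    Function.update (pt01 R S) i 1 = pt01 R (insert i S) := by
  funext j
  by_cases h : j = i
  · subst h; simp [pt01]
  · simp [pt01, h]

omit [Fintype L] in
theorem update_pt01_zero (S : Finset L) (i : L) :
    Function.update (pt01 R S) i 0 = pt01 R (S.erase i) := by
  funext j
  by_cases h : j = i
  · subst h; simp [pt01]
  · simp [pt01, h]

theorem Phi_zero_all (p : L → B → R) (f : B → R)
    (h : ∀ S : Finset L, Phi p (pt01 R S) univ f = 0) (K : Finset L) :
    ∀ S : Finset L, Phi p (pt01 R S) Kᶜ f = 0 := by
  induction K using Finset.induction_on with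
  | empty => simpa using h
  | insert i K hi ih =>
    intro S
    have h1 := Phi_sub p (pt01 R S) Kᶜ f (mem_compl.2 hi) 1 0
    rw [update_pt01_one, update_pt01_zero, ih, ih, sub_zero, sub_zero, one_mul] at h1
    rw [compl_insert]
    exact h1.symm

omit [DecidableEq L] in
theorem Phi_single (p : L → B → R) (x : L → R) (J : Finset L) {A : Type*} [Fintype A]
    (ι : A → B) (γ : A → R) :
    Phi p x J (fun b => ∑ a, γ a * (if b = ι a then 1 else 0)) =
      ∑ a, γ a * Phi p x J (fun b => if b = ι a then 1 else 0) := by
  simp only [Phi]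
  have h1 : lfB L (fun b => ∑ a, γ a * (if b = ι a then 1 else 0)) =
      ∑ a, C (γ a) * lfB L (fun b => if b = ι a then (1 : R) else 0) := by
    simp only [lfB, Finset.mul_sum, map_sum, Finset.sum_mul, map_mul]
    rw [Finset.sum_comm]
    refine Finset.sum_congr rfl fun a _ => Finset.sum_congr rfl fun b _ => ?_
    ring
  rw [h1, Finset.sum_mul, map_sum]
  refine Finset.sum_congr rfl fun a _ => ?_
  rw [mul_assoc, ← smul_eq_C_mul, map_smul, smul_eq_mul]

end zero

section field

variable {L B : Type v} {K : Type w} [Fintype L] [DecidableEq L] [Fintype B] [DecidableEq B]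
  [Field K] [CharZero K]

theorem qS_zero (p : L → B → K) (f : B → K)
    (h : ∀ S : Finset L, Phi p (pt01 K S) univ f = 0) (J : Finset L) : qS p J f = 0 := by
  induction J using Finset.strongInduction with
  | H J ih =>
    have h1 := Phi_of_qS p (pt01 K ∅) J.card J rfl f ih
    have h2 := Phi_zero_all p f h Jᶜ ∅
    rw [compl_compl] at h2
    rw [h2] at h1
    have h3 : ((-1) ^ J.card * (J.card ! : K)) ≠ 0 :=
      mul_ne_zero (pow_ne_zero _ (neg_ne_zero.2 one_ne_zero))
        (Nat.cast_ne_zero.2 (Nat.factorial_ne_zero _))
    exact (mul_eq_zero.1 h1.symm).resolve_left h3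

/-- The values of the gadget at the zero-one points. -/
noncomputable def valM (K : Type w) [Field K] (b0 : B) (p : L → B → K) (ι : Finset L → B) :
    Matrix (Finset L) (Finset L) K :=
  Matrix.of fun S a => (gmat b0 p (pt01 K S) (fun b => if b = ι a then 1 else 0)).permanent

theorem valM_det (b0 : B) (p : L → B → K) (ι : Finset L → B)
    (hp : ∀ i a, p i (ι a) = if i ∈ a then 1 else 0) : (valM K b0 p ι).det ≠ 0 := by
  rw [Ne, ← Matrix.exists_mulVec_eq_zero_iff]
  rintro ⟨v, hv, hM⟩
  apply hv
  have hfac : ((Fintype.card B - 1)! : K) ≠ 0 := Nat.cast_ne_zero.2 (Nat.factorial_ne_zero _)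
  have h1 : ∀ S : Finset L, Phi p (pt01 K S) univ
      (fun b => ∑ a, v a * (if b = ι a then 1 else 0)) = 0 := by
    intro S
    have h2 := congrFun hM S
    simp only [Matrix.mulVec, dotProduct, valM, Matrix.of_apply, perm_gmat, Pi.zero_apply] at h2
    rw [Phi_single]
    have h3 : ∑ a, (((Fintype.card B - 1)! : K) * Phi p (pt01 K S) univ
        (fun b => if b = ι a then 1 else 0)) * v a = ((Fintype.card B - 1)! : K) *
        ∑ a, v a * Phi p (pt01 K S) univ (fun b => if b = ι a then 1 else 0) := by
      rw [Finset.mul_sum]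
      refine Finset.sum_congr rfl fun a _ => ?_
      ring
    rw [h3] at h2
    exact (mul_eq_zero.1 h2).resolve_left hfac
  have h2 : ∀ J : Finset L, ∑ a, v a * (if J ⊆ a then 1 else 0) = 0 := by
    intro J
    have h3 := qS_zero p _ h1 J
    simp only [qS] at h3
    refine Eq.trans ?_ h3
    simp only [Finset.sum_mul]
    rw [Finset.sum_comm]
    refine Finset.sum_congr rfl fun a _ => ?_
    rw [Finset.sum_eq_single (ι a)]
    · rw [if_pos rfl, mul_one]
      congr 1
      simp only [hp]
      rw [Finset.prod_ite_zero]
      simp [Finset.subset_iff]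
    · intro b _ hb
      rw [if_neg hb]; ring
    · simp
  have h3 : ∀ n, ∀ a : Finset L, aᶜ.card = n → v a = 0 := by
    intro n
    induction n using Nat.strong_induction_on with
    | _ n ih =>
      intro a ha
      have h4 := h2 a
      rw [Finset.sum_eq_single a] at h4
      · simpa using h4
      · intro b _ hba
        by_cases hab : a ⊆ b
        · rw [ih bᶜ.card _ b rfl, zero_mul]
          rw [← ha]
          apply card_lt_card
          rw [compl_ssubset_compl]
          exact ssubset_of_subset_of_ne hab (Ne.symm hba)
        · rw [if_neg hab, mul_zero]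
      · simp
  funext a
  exact h3 _ a rfl

end field

end Pool.Agent.FormPer
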