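import Pool.Agent.H10.PerSL.GadgetA

/-!
The one-sided gadget: its permanent, and the functions of `x` which it represents.
-/

namespace Pool.Agent.FormPer

open MvPolynomial Finset
open Pool.Agent.H10.PerSL Pool.Agent.H10.PerSL.Gad
open scoped Nat

universe u v w

section lam

variable {ρ : Type v} {R : Type w} [Fintype ρ] [DecidableEq ρ] [CommRing R]

omit [DecidableEq ρ] in
theorem Lam_ind (k : ℕ) (p : MvPolynomial ρ R) :
    Lam k p = ∑ T ∈ (univ : Finset ρ).powersetCard k, coeff (ind T) p := Lam_apply k p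

theorem Lam_X_mul (v : ρ) (k : ℕ) (G : MvPolynomial ρ R) :
    Lam (k + 1) (X v * G) = Lam k G - Lam k (X v * pderiv v G) := by
  rw [Lam_ind, Lam_ind, Lam_ind]
  have h1 : ∀ W : Finset ρ, coeff (ind W) (X v * G) =
      if v ∈ W then coeff (ind (W.erase v)) G else 0 := by
    intro W
    rw [coeff_X_mul', ind_support]
    split_ifs with hi
    · rw [ind_sub W hi]
    · rfl
  have h2 : ∀ W : Finset ρ, coeff (ind W) (X v * pderiv v G) =
      if v ∈ W then coeff (ind W) G else 0 := by
    intro W
    rw [coeff_X_mul', ind_support]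
    split_ifs with hi
    · rw [ind_sub W hi, coeff_pderiv]
      have h3 : ind (W.erase v) + Finsupp.single v 1 = ind W := by
        rw [← ind_sub W hi]
        apply tsub_add_cancel_of_le
        intro i
        rw [ind_apply, Finsupp.single_apply]
        by_cases hiv : v = i
        · subst hiv; simp [hi]
        · simp [hiv]
      rw [h3, ind_apply, if_neg (Finset.notMem_erase _ _)]
      simp
    · rfl
  rw [← Finset.sum_sub_distrib]
  simp only [h1, h2]
  have h3 : ∀ W : Finset ρ, coeff (ind W) G - (if v ∈ W then coeff (ind W) G else 0) =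
      if v ∉ W then coeff (ind W) G else 0 := by
    intro W
    by_cases h : v ∈ W <;> simp [h]
  simp only [h3]
  rw [← Finset.sum_filter, ← Finset.sum_filter]
  refine Finset.sum_bij' (fun W _ => W.erase v) (fun W _ => insert v W) ?_ ?_ ?_ ?_ ?_
  · intro W hW
    rw [mem_filter, mem_powersetCard] at hW ⊢
    refine ⟨⟨subset_univ _, ?_⟩, notMem_erase _ _⟩
    rw [card_erase_of_mem hW.2, hW.1.2]; rfl
  · intro W hW
    rw [mem_filter, mem_powersetCard] at hW ⊢
    refine ⟨⟨subset_univ _, ?_⟩, mem_insert_self _ _⟩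
    rw [card_insert_of_notMem hW.2, hW.1.2]
  · intro W hW
    rw [mem_filter] at hW
    exact insert_erase hW.2
  · intro W hW
    rw [mem_filter] at hW
    exact erase_insert hW.2
  · intro W _; rfl

omit [Fintype ρ] [DecidableEq ρ] in
theorem deriv_prod {S : Type*} [CommRing S] [Algebra R S] (D : Derivation R S S) {ι : Type*}
    [DecidableEq ι] (s : Finset ι) (g : ι → S) :
    D (∏ j ∈ s, g j) = ∑ j ∈ s, (∏ i ∈ s.erase j, g i) * (D (g j) : S) := by
  induction s using Finset.induction_on with
  | empty => simp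
  | insert a s ha ih =>
    have h1 : ∀ a b c d : S, a = d → b = c → a + b = c + d := by
      rintro a b c d rfl rfl; exact add_comm _ _
    rw [prod_insert ha, D.leibniz, ih, sum_insert ha, erase_insert ha, smul_eq_mul,
      smul_eq_mul, Finset.mul_sum]
    refine h1 _ _ _ _ ?_ rfl
    refine Finset.sum_congr rfl fun j hj => ?_
    have hja : a ≠ j := fun h => ha (h ▸ hj)
    rw [erase_insert_of_ne hja, prod_insert (fun h => ha (mem_of_mem_erase h))]
    ring

end lam

section gadget

variable {L B : Type v} {R : Type w} [Fintype L] [DecidableEq L] [Fintype B] [DecidableEq B]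
  [CommRing R]

/-- The one-sided gadget. -/
def gmat (b0 : B) (p : L → B → R) (x : L → R) (f : B → R) : Matrix (L ⊕ B) (L ⊕ B) R :=
  Matrix.of fun r c => match r, c with
  | Sum.inl i, Sum.inl j => if i = j then x i else 0
  | Sum.inl i, Sum.inr b => p i b
  | Sum.inr b, Sum.inl _ => if b = b0 then 0 else 1
  | Sum.inr b, Sum.inr c => if b = b0 then f c else 1

/-- The linear form of a vector indexed by `B`. -/
noncomputable def lfB (L : Type v) (f : B → R) : MvPolynomial (L ⊕ B) R :=
  ∑ b, C (f b) * X (Sum.inr b)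

/-- The linear form of row `i`. -/
noncomputable def row (p : L → B → R) (x : L → R) (i : L) : MvPolynomial (L ⊕ B) R :=
  C (x i) * X (Sum.inl i) + lfB L (p i)

/-- The functional. -/
noncomputable def Phi (p : L → B → R) (x : L → R) (J : Finset L) (f : B → R) : R :=
  Lam (J.card + 1) (lfB L f * ∏ i ∈ J, row p x i)

theorem perm_gmat (b0 : B) (p : L → B → R) (x : L → R) (f : B → R) :
    (gmat b0 p x f).permanent = ((Fintype.card B - 1)! : R) * Phi p x univ f := by
  rw [← Matrix.permanent_transpose]
  have h0 := perm_coeff (R := R) (r := L ⊕ B) (c := L ⊕ B) (fun i j => gmat b0 p x f j i)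
  rw [Matrix.permanent]
  simp only [Matrix.transpose_apply]
  rw [show (∑ σ : Equiv.Perm (L ⊕ B), ∏ i, gmat b0 p x f i (σ i)) =
    ∑ σ : (L ⊕ B) ≃ (L ⊕ B), ∏ j, gmat b0 p x f j (σ j) from rfl, h0]
  have hB : 0 < Fintype.card B := Fintype.card_pos_iff.2 ⟨b0⟩
  rw [Phi, ← coeff_pow_mul_Lam (a := Fintype.card B - 1) (k := (univ : Finset L).card + 1)]
  · congr 1
    rw [Fintype.prod_sum_type]
    have h1 : ∀ i : L, (∑ c : L ⊕ B, C (gmat b0 p x f (Sum.inl i) c) *
        (X c : MvPolynomial (L ⊕ B) R)) = row p x i := by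
      intro i
      rw [Fintype.sum_sum_type]
      simp only [gmat, Matrix.of_apply, row, lfB]
      congr 1
      rw [Finset.sum_eq_single i]
      · simp
      · intro j _ hj
        rw [if_neg (Ne.symm hj)]; simp
      · simp
    have h2 : ∀ b : B, (∑ c : L ⊕ B, C (gmat b0 p x f (Sum.inr b) c) *
        (X c : MvPolynomial (L ⊕ B) R)) = if b = b0 then lfB L f else ∑ c, X c := by
      intro b
      by_cases hb : b = b0
      · subst hb
        rw [Fintype.sum_sum_type]
        simp [gmat, lfB]
      · rw [if_neg hb]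
        refine Finset.sum_congr rfl fun c _ => ?_
        rcases c with c | c <;> simp [gmat, hb]
    simp only [h1, h2]
    rw [← Finset.mul_prod_erase univ (fun b => if b = b0 then lfB L f else
      (∑ c, X c : MvPolynomial (L ⊕ B) R)) (mem_univ b0), if_pos rfl]
    rw [Finset.prod_congr rfl (g := fun _ => (∑ c, X c : MvPolynomial (L ⊕ B) R))
      (fun b hb => if_neg (ne_of_mem_erase hb)), Finset.prod_const,
      card_erase_of_mem (mem_univ _), card_univ]
    ring
  · rw [Fintype.card_sum, card_univ]; omega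

/-- The recursion. -/
theorem Phi_rec (p : L → B → R) (x : L → R) (J : Finset L) (f : B → R) :
    Phi p x J f = (∑ b, f b) * Lam J.card (∏ i ∈ J, row p x i) -
      ∑ j ∈ J, Phi p x (J.erase j) (fun b => f b * p j b) := by
  have h0 : ∀ (k : ℕ) (G : MvPolynomial (L ⊕ B) R), Lam (k + 1) (lfB L f * G) =
      (∑ b, f b) * Lam k G - Lam k (∑ b, C (f b) * (X (Sum.inr b) * pderiv (Sum.inr b) G)) := by
    intro k G
    rw [lfB, Finset.sum_mul, map_sum, map_sum, Finset.sum_mul, ← Finset.sum_sub_distrib]
    refine Finset.sum_congr rfl fun b _ => ?_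
    rw [mul_assoc, ← smul_eq_C_mul, map_smul, Lam_X_mul, ← smul_eq_C_mul, map_smul, smul_sub,
      smul_eq_mul, smul_eq_mul]
  rw [Phi, h0]
  congr 1
  have hrow : ∀ j b, pderiv (Sum.inr b) (row p x j) = C (p j b) := by
    intro j b
    rw [row, lfB, map_add, map_sum, pderiv_C_mul, pderiv_X_of_ne (by simp), mul_zero, zero_add,
      Finset.sum_eq_single b]
    · rw [pderiv_C_mul, pderiv_X_self, mul_one]
    · intro c _ hc
      rw [pderiv_C_mul, pderiv_X_of_ne (by simpa using hc), mul_zero]
    · simp
  have h1 : (∑ b, C (f b) * (X (Sum.inr b) * pderiv (Sum.inr b) (∏ i ∈ J, row p x i))) =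
      ∑ j ∈ J, lfB L (fun b => f b * p j b) * ∏ i ∈ J.erase j, row p x i := by
    simp only [deriv_prod, Finset.mul_sum, hrow]
    rw [Finset.sum_comm]
    refine Finset.sum_congr rfl fun j _ => ?_
    rw [lfB, Finset.sum_mul]
    refine Finset.sum_congr rfl fun b _ => ?_
    rw [map_mul]
    ring
  rw [h1, map_sum]
  refine Finset.sum_congr rfl fun j hj => ?_
  rw [Phi, card_erase_of_mem hj, Nat.sub_add_cancel (card_pos.2 ⟨j, hj⟩)]

/-- Removing an element of `J`. -/
theorem Phi_sub (p : L → B → R) (x : L → R) (J : Finset L) (f : B → R) {i : L} (hi : i ∈ J)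
    (y z : R) :
    Phi p (Function.update x i y) J f - Phi p (Function.update x i z) J f =
      (y - z) * Phi p x (J.erase i) f := by
  have h1 : ∀ y, ∏ j ∈ J, row p (Function.update x i y) j =
      (C y * X (Sum.inl i) + lfB L (p i)) * ∏ j ∈ J.erase i, row p x j := by
    intro y
    rw [← Finset.mul_prod_erase J _ hi]
    congr 1
    · simp [row]
    · refine Finset.prod_congr rfl fun j hj => ?_
      rw [row, row, Function.update_of_ne (ne_of_mem_erase hj)]
  rw [Phi, Phi, ← map_sub, h1, h1]
  have h2 : lfB L f * ((C y * X (Sum.inl i) + lfB L (p i)) * ∏ j ∈ J.erase i, row p x j) -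
      lfB L f * ((C z * X (Sum.inl i) + lfB L (p i)) * ∏ j ∈ J.erase i, row p x j) =
      C (y - z) * (X (Sum.inl i) * (lfB L f * ∏ j ∈ J.erase i, row p x j)) := by
    rw [map_sub]; ring
  rw [h2, ← smul_eq_C_mul, map_smul, smul_eq_mul, Phi, Lam_X_mul, card_erase_of_mem hi,
    Nat.sub_add_cancel (card_pos.2 ⟨i, hi⟩)]
  have h3 : pderiv (Sum.inl i) (lfB L f * ∏ j ∈ J.erase i, row p x j) = 0 := by
    have h4 : ∀ g : B → R, pderiv (Sum.inl i) (lfB L g) = 0 := by
      intro g
      rw [lfB, map_sum]
      refine Finset.sum_eq_zero fun b _ => ?_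
      rw [pderiv_C_mul, pderiv_X_of_ne (by simp), mul_zero]
    rw [Derivation.leibniz, h4, smul_zero, add_zero, deriv_prod, Finset.sum_eq_zero, smul_zero]
    intro j hj
    rw [row, map_add, h4, add_zero, pderiv_C_mul, pderiv_X_of_ne, mul_zero, mul_zero]
    simpa using ne_of_mem_erase hj
  rw [h3, mul_zero, map_zero, sub_zero]

/-- The power sums. -/
def qS (p : L → B → R) (S : Finset L) (f : B → R) : R := ∑ b, f b * ∏ i ∈ S, p i b

theorem Phi_of_qS (p : L → B → R) (x : L → R) (n : ℕ) : ∀ (J : Finset L), J.card = n →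
    ∀ f : B → R, (∀ S, S ⊂ J → qS p S f = 0) → Phi p x J f = (-1) ^ n * (n ! : R) * qS p J f := by
  induction n with
  | zero =>
    intro J hJ f _
    rw [Finset.card_eq_zero] at hJ
    subst hJ
    rw [Phi_rec]
    simp [qS, Lam_ind, ind_empty]
  | succ n ih =>
    intro J hJ f hS
    have hJ0 : J.Nonempty := card_pos.1 (by omega)
    have h0 : ∑ b, f b = 0 := by
      have := hS ∅ (empty_ssubset.2 hJ0)
      simpa [qS] using this
    rw [Phi_rec, h0, zero_mul, zero_sub]
    have h1 : ∀ j ∈ J, Phi p x (J.erase j) (fun b => f b * p j b) =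
        (-1) ^ n * (n ! : R) * qS p J f := by
      intro j hj
      have hq : ∀ S : Finset L, j ∉ S → qS p S (fun b => f b * p j b) = qS p (insert j S) f := by
        intro S hjS
        simp only [qS]
        refine Finset.sum_congr rfl fun b _ => ?_
        rw [prod_insert hjS, mul_assoc]
      rw [ih (J.erase j) (by rw [card_erase_of_mem hj, hJ]; rfl), hq _ (notMem_erase _ _),
        insert_erase hj]
      intro S hSJ
      rw [hq _ (fun h => notMem_erase j J (hSJ.1 h))]
      refine hS _ ?_
      rw [ssubset_iff_subset_ne]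
      refine ⟨insert_subset hj (hSJ.1.trans (erase_subset _ _)), fun h => ?_⟩
      apply hSJ.ne
      rw [← h, erase_insert (fun h => notMem_erase j J (hSJ.1 h))]
    rw [Finset.sum_congr rfl h1, Finset.sum_const, hJ, nsmul_eq_mul, Nat.factorial_succ]
    push_cast
    ring

end gadget

end Pool.Agent.FormPer
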