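import Pool.Agent.FormPer.Defs
import Pool.Agent.FormPer.Gad

/-!
Permanents: block diagonal matrices, minors, derivatives, and the two-sided gadget.
-/

namespace Pool.Agent.FormPer

open MvPolynomial Finset Equiv

universe u v w

section block

variable {m : Type*} {n : Type*} [Fintype m] [DecidableEq m] [Fintype n] [DecidableEq n]
  {R : Type*} [CommRing R]

theorem permanent_fromBlocks_diag (A : Matrix m m R) (D : Matrix n n R) :
    (Matrix.fromBlocks A 0 0 D).permanent = A.permanent * D.permanent := by
  classical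
    simp_rw [Matrix.permanent]
    convert!
      Eq.symm <|
        sum_subset (M := R)
          (subset_univ ((Perm.sumCongrHom m n).range : Set (Perm (m ⊕ n))).toFinset) ?_
    · simp_rw [sum_mul_sum, ← sum_product', univ_product_univ]
      refine sum_nbij (fun σ ↦ σ.fst.sumCongr σ.snd) ?_ ?_ ?_ ?_
      · intro σ₁₂ _
        rw [Set.mem_toFinset]
        exact ⟨σ₁₂, rfl⟩
      · intro σ₁ _ σ₂ _
        dsimp only
        intro h
        have h2 : ∀ x, Perm.sumCongr σ₁.fst σ₁.snd x = Perm.sumCongr σ₂.fst σ₂.snd x :=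
          DFunLike.congr_fun h
        simp only [Sum.map_inr, Sum.map_inl, Perm.sumCongr_apply, Sum.forall, Sum.inl.injEq,
          Sum.inr.injEq] at h2
        ext x
        · exact h2.left x
        · exact h2.right x
      · intro σ hσ
        rw [mem_coe, Set.mem_toFinset] at hσ
        obtain ⟨σ₁₂, hσ₁₂⟩ := hσ
        use σ₁₂
        rw [← hσ₁₂]
        simp
      · simp only [forall_prop_of_true, Prod.forall, mem_univ]
        intro σ₁ σ₂
        rw [Fintype.prod_sum_type]
        simp_rw [Equiv.sumCongr_apply, Sum.map_inr, Sum.map_inl, Matrix.fromBlocks_apply₁₁,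
          Matrix.fromBlocks_apply₂₂]
    · rintro σ - hσn
      have h1 : ¬∀ x, ∃ y, Sum.inl y = σ (Sum.inl x) := by
        rw [Set.mem_toFinset] at hσn
        simpa only [Set.MapsTo, Set.mem_range, forall_exists_index, forall_apply_eq_imp_iff] using
          mt Perm.mem_sumCongrHom_range_of_perm_mapsTo_inl hσn
      obtain ⟨a, ha⟩ := not_forall.mp h1
      rcases hx : σ (Sum.inl a) with a2 | b
      · have hn := (not_exists.mp ha) a2
        exact absurd hx.symm hn
      · rw [Finset.prod_eq_zero (Finset.mem_univ (Sum.inl a))]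
        rw [hx, Matrix.fromBlocks_apply₂₁, Matrix.zero_apply]

theorem permanent_minor (M : Matrix m m R) (p q : m) :
    (M.updateCol q (Pi.single p 1)).permanent = (M.updateRow p (Pi.single q 1)).permanent := by
  unfold Matrix.permanent
  refine Finset.sum_congr rfl fun σ _ => ?_
  by_cases h : σ q = p
  · refine Finset.prod_congr rfl fun i _ => ?_
    by_cases hi : i = q
    · subst hi
      rw [Matrix.updateCol_self, h, Matrix.updateRow_self, Pi.single_eq_same, Pi.single_eq_same]
    · have : σ i ≠ p := fun h' => hi (σ.injective (h'.trans h.symm))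
      rw [Matrix.updateCol_ne hi, Matrix.updateRow_ne this]
  · rw [Finset.prod_eq_zero (mem_univ q), Finset.prod_eq_zero (mem_univ (σ.symm p))]
    · rw [Equiv.apply_symm_apply, Matrix.updateRow_self, Pi.single_eq_of_ne]
      intro h'
      apply h
      rw [← h', Equiv.apply_symm_apply]
    · rw [Matrix.updateCol_self, Pi.single_eq_of_ne h]

end block

section deriv

variable {k : Type u} [Field k] {I : Type v} [Fintype I] [DecidableEq I]

theorem eval_pderiv_perPoly {n : ℕ} (eR eC : Fin n ≃ I) (M : Matrix I I k) (v : Fin n × Fin n) :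
    eval (fun q : Fin n × Fin n => M (eR q.1) (eC q.2)) (pderiv v (perPoly n k)) =
      (M.updateCol (eC v.2) (Pi.single (eR v.1) 1)).permanent := by
  unfold perPoly Matrix.permanent
  simp only [Matrix.of_apply]
  rw [map_sum, map_sum]
  refine Fintype.sum_equiv (Equiv.equivCongr eC eR) _ _ ?_
  intro σ
  rw [deriv_prod, map_sum]
  have h1 : ∀ j : Fin n, eval (fun q : Fin n × Fin n => M (eR q.1) (eC q.2))
      ((∏ i ∈ univ.erase j, X (σ i, i)) * (pderiv v (X (σ j, j) : MvPolynomial (Fin n × Fin n) k)
        : MvPolynomial (Fin n × Fin n) k)) =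
      if j = v.2 then (if σ j = v.1 then ∏ i ∈ univ.erase j, M (eR (σ i)) (eC i) else 0)
        else 0 := by
    intro j
    rw [pderiv_X, map_mul]
    by_cases hj : j = v.2
    · by_cases hs : σ j = v.1
      · have : (σ j, j) = v := Prod.ext hs hj
        rw [if_pos hj, if_pos hs, this]
        simp
      · have : (σ j, j) ≠ v := fun h => hs (by rw [← h])
        rw [if_pos hj, if_neg hs, Pi.single_eq_of_ne this]
        simp
    · have : (σ j, j) ≠ v := fun h => hj (by rw [← h])
      rw [if_neg hj, Pi.single_eq_of_ne this]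
      simp
  simp only [h1]
  rw [Finset.sum_ite_eq' univ v.2, if_pos (mem_univ _)]
  have h2 : ∏ i : I, (M.updateCol (eC v.2) (Pi.single (eR v.1) 1))
      ((Equiv.equivCongr eC eR) σ i) i =
      ∏ i : Fin n, (M.updateCol (eC v.2) (Pi.single (eR v.1) 1)) (eR (σ i)) (eC i) := by
    symm
    refine Fintype.prod_equiv eC _ _ ?_
    intro i
    simp [Equiv.equivCongr]
  rw [h2, ← Finset.mul_prod_erase univ _ (mem_univ v.2), Matrix.updateCol_self]
  have h3 : ∏ i ∈ univ.erase v.2, (M.updateCol (eC v.2) (Pi.single (eR v.1) 1)) (eR (σ i)) (eC i) =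
      ∏ i ∈ univ.erase v.2, M (eR (σ i)) (eC i) := by
    refine Finset.prod_congr rfl fun i hi => ?_
    rw [Matrix.updateCol_ne (fun h => (ne_of_mem_erase hi) (eC.injective h))]
  rw [h3]
  by_cases hs : σ v.2 = v.1
  · rw [if_pos hs, hs, Pi.single_eq_same, one_mul]
  · rw [if_neg hs, Pi.single_eq_of_ne (fun h => hs (eR.injective h)), zero_mul]

end deriv

section two

variable {L B B' : Type v} [Fintype L] [DecidableEq L] [Fintype B] [DecidableEq B]
  [Fintype B'] [DecidableEq B'] {R : Type w} [CommRing R]

/-- The two-sided gadget. -/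
def twoM (b0 : B) (b0' : B') (p : L → B → R) (p' : L → B' → R) (x x' : L → R) :
    Matrix ((L ⊕ B) ⊕ (L ⊕ B')) ((L ⊕ B) ⊕ (L ⊕ B')) R :=
  Matrix.fromBlocks (gmat b0 p x 0).transpose 0
    (Matrix.of fun r c => if r = Sum.inr b0' ∧ c = Sum.inr b0 then 1 else 0) (gmat b0' p' x' 0)

theorem twoM_minor (b0 : B) (b0' : B') (p : L → B → R) (p' : L → B' → R) (x x' : L → R)
    (a : B) (d : B') :
    ((twoM b0 b0' p p' x x').updateCol (Sum.inr (Sum.inr d))
      (Pi.single (Sum.inl (Sum.inr a)) 1)).permanent =
      (gmat b0 p x (fun b => if b = a then 1 else 0)).permanent *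
        (gmat b0' p' x' (fun b => if b = d then 1 else 0)).permanent := by
  rw [← Matrix.permanent_permute_rows
    (Equiv.swap (Sum.inl (Sum.inr b0)) (Sum.inr (Sum.inr d)) : Perm ((L ⊕ B) ⊕ (L ⊕ B')))]
  have h1 : ((twoM b0 b0' p p' x x').updateCol (Sum.inr (Sum.inr d))
      (Pi.single (Sum.inl (Sum.inr a)) 1)).submatrix id
      (Equiv.swap (Sum.inl (Sum.inr b0)) (Sum.inr (Sum.inr d)) : Perm ((L ⊕ B) ⊕ (L ⊕ B'))) =
      Matrix.fromBlocks (gmat b0 p x (fun b => if b = a then 1 else 0)).transpose 0 0
        ((gmat b0' p' x' 0).updateCol (Sum.inr d) (Pi.single (Sum.inr b0') 1)) := by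
    ext r c
    rw [Matrix.submatrix_apply, id]
    by_cases hc1 : c = Sum.inl (Sum.inr b0)
    · subst hc1
      rw [Equiv.swap_apply_left, Matrix.updateCol_self]
      rcases r with (r | r) | r
      · simp [gmat]
      · simp [gmat, Pi.single_apply]
      · simp
    by_cases hc2 : c = Sum.inr (Sum.inr d)
    · subst hc2
      rw [Equiv.swap_apply_right, Matrix.updateCol_ne (by simp)]
      rcases r with (r | r) | r
      · simp [twoM, gmat]
      · simp [twoM, gmat]
      · simp [twoM, Pi.single_apply]
    rw [Equiv.swap_apply_of_ne_of_ne hc1 hc2, Matrix.updateCol_ne hc2]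
    rcases c with c | c
    · rcases r with r | r
      · rcases c with c | c
        · rcases r with r | r <;> simp [twoM, gmat]
        · have : c ≠ b0 := fun h => hc1 (by rw [h])
          rcases r with r | r <;> simp [twoM, gmat, this]
      · have : c ≠ Sum.inr b0 := fun h => hc1 (by rw [h])
        simp [twoM, this]
    · have : c ≠ Sum.inr d := fun h => hc2 (by rw [h])
      rcases r with r | r
      · simp [twoM]
      · simp [twoM, Matrix.updateCol_ne this]
  rw [h1, permanent_fromBlocks_diag, Matrix.permanent_transpose, permanent_minor]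
  congr 2
  ext r c
  by_cases hr : r = Sum.inr b0'
  · subst hr
    rw [Matrix.updateRow_self]
    rcases c with c | c <;> simp [gmat, Pi.single_apply]
  · rw [Matrix.updateRow_ne hr]
    rcases r with r | r
    · rcases c with c | c <;> simp [gmat]
    · have : r ≠ b0' := fun h => hr (by rw [h])
      rcases c with c | c <;> simp [gmat, this]

end two

end Pool.Agent.FormPer
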