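import Pool.Agent.FormPer.Kal
import Pool.Agent.FormPer.Indep
import Pool.Agent.FormPer.Perm
import Pool.Agent.H10.PerSL.Subst

/-!
The bound for one block of variables.
-/

namespace Pool.Agent.FormPer

open MvPolynomial Finset Module
open Pool.Agent.H53.AC
open scoped Kronecker

universe u v w

theorem hom_eval' {R S : Type*} {σ : Type*} [CommRing R] [CommRing S] (φ : R →+* S) (x : σ → R)
    (p : MvPolynomial σ R) : φ (eval x p) = eval (fun i => φ (x i)) (map φ p) := by
  induction p using MvPolynomial.induction_on with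
  | C a => simp
  | add f g hf hg => simp [hf, hg]
  | mul_X f i hf => simp [hf]

/-- The incidence function used in the gadget. -/
noncomputable def inc {L B : Type v} (R : Type w) [CommRing R] (ι : Finset L → B) (i : L)
    (b : B) : R :=
  open Classical in if ∃ a, ι a = b ∧ i ∈ a then 1 else 0

theorem inc_apply {L B : Type v} [DecidableEq L] (R : Type w) [CommRing R] (ι : Finset L → B)
    (hι : Function.Injective ι) (i : L) (a : Finset L) :
    inc R ι i (ι a) = if i ∈ a then 1 else 0 := by
  unfold inc
  by_cases h : i ∈ a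
  · rw [if_pos h, if_pos ⟨a, rfl, h⟩]
  · rw [if_neg h, if_neg]
    rintro ⟨a', h1, h2⟩
    exact h (hι h1 ▸ h2)

/-- A polynomial over `k(ε)` that specializes to `f` comes from one over `k[[ε]]`. -/
theorem exists_lift {k : Type u} [Field k] {σ : Type v} (f : MvPolynomial σ k)
    (F : MvPolynomial σ (RatFunc k)) (hF : ∀ m, SpecializesTo (coeff m F) (coeff m f)) :
    ∃ (ψ : RatFunc k →+* FractionRing (PowerSeries k)) (F' : MvPolynomial σ (PowerSeries k)),
      map (algebraMap (PowerSeries k) (FractionRing (PowerSeries k))) F' = map ψ F ∧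
        map (PowerSeries.constantCoeff (R := k)) F' = f := by
  classical
  have hinj : Function.Injective (algebraMap (PowerSeries k) (FractionRing (PowerSeries k))) :=
    IsFractionRing.injective _ _
  obtain ⟨ψ, hψ⟩ := Pool.Agent.H10.PerSL.exists_psi (k := k) (K := k) hinj (e := 1) one_pos
  choose b hb using fun m => hψ _ _ (hF m)
  refine ⟨ψ, ∑ m ∈ F.support ∪ f.support, monomial m
    (PowerSeries.C (coeff m f) + PowerSeries.X * b m), ?_, ?_⟩
  · ext m
    rw [coeff_map, coeff_map, coeff_sum]
    simp only [coeff_monomial]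
    rw [Finset.sum_ite_eq' (F.support ∪ f.support) m]
    split_ifs with h
    · rw [hb m]; simp
    · rw [mem_union, not_or] at h
      rw [notMem_support_iff.1 h.1, map_zero, map_zero]
  · ext m
    rw [coeff_map, coeff_sum]
    simp only [coeff_monomial]
    rw [Finset.sum_ite_eq' (F.support ∪ f.support) m]
    split_ifs with h
    · simp
    · rw [mem_union, not_or] at h
      rw [notMem_support_iff.1 h.2, map_zero]

theorem block_bound {k : Type u} [Field k] [CharZero k] {n : ℕ}
    (F : Formula (RatFunc k) (Fin n × Fin n))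
    (hF : ∀ m, SpecializesTo (coeff m F.poly) (coeff m (perPoly n k)))
    {L B B' : Type} [Fintype L] [DecidableEq L] [Fintype B] [DecidableEq B]
    [Fintype B'] [DecidableEq B'] (ι : Finset L → B) (hι : Function.Injective ι)
    (ι' : Finset L → B') (hι' : Function.Injective ι')
    (eR eC : Fin n ≃ (L ⊕ B) ⊕ (L ⊕ B')) (Bl : Finset (Fin n × Fin n))
    (hBl : ∀ q : Fin n × Fin n, q ∈ Bl ↔ ∃ j : L ⊕ L, eR q.1 = Sum.map Sum.inl Sum.inl j ∧
      eC q.2 = Sum.map Sum.inl Sum.inl j) :
    4 ^ Fintype.card L ≤ 4 * F.occ Bl + 1 := by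
  classical
  obtain ⟨ψ, F', hF1, hF2⟩ := exists_lift (perPoly n k) F.poly hF
  let O := PowerSeries k
  let L' := FractionRing (PowerSeries k)
  have hinj : Function.Injective (algebraMap O L') := IsFractionRing.injective _ _
  let A := Finset L
  let b0 : B := ι ∅
  let b0' : B' := ι' ∅
  let M : A × A → Matrix ((L ⊕ B) ⊕ (L ⊕ B')) ((L ⊕ B) ⊕ (L ⊕ B')) k := fun S =>
    twoM b0 b0' (inc k ι) (inc k ι') (pt01 k S.1) (pt01 k S.2)
  let ptk : A × A → Fin n × Fin n → k := fun S q => M S (eR q.1) (eC q.2)
  let w : A × A → Fin n × Fin n := fun a =>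
    (eR.symm (Sum.inl (Sum.inr (ι a.1))), eC.symm (Sum.inr (Sum.inr (ι' a.2))))
  let ptO : A × A → Fin n × Fin n → O := fun S q => PowerSeries.C (ptk S q)
  let MO : Matrix (A × A) (A × A) O := Matrix.of fun S a => eval (ptO S) (pderiv (w a) F')
  -- reduction
  have hk : (PowerSeries.constantCoeff (R := k)).mapMatrix MO =
      valM k b0 (inc k ι) ι ⊗ₖ valM k b0' (inc k ι') ι' := by
    ext ⟨S, S'⟩ ⟨a, d⟩
    rw [RingHom.mapMatrix_apply, Matrix.map_apply, Matrix.kroneckerMap_apply]
    simp only [MO, Matrix.of_apply, valM]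
    rw [← twoM_minor b0 b0' (inc k ι) (inc k ι') (pt01 k S) (pt01 k S') (ι a) (ι' d)]
    have h1 := eval_pderiv_perPoly eR eC (M (S, S')) (w (a, d))
    simp only [w, Equiv.apply_symm_apply] at h1
    rw [← h1, ← hF2, pderiv_map, hom_eval']
    congr 2
  have hdet : MO.det ≠ 0 := by
    intro h0
    have h1 := congrArg (PowerSeries.constantCoeff (R := k)) h0
    rw [RingHom.map_det, hk, map_zero, Matrix.det_kronecker] at h1
    exact mul_ne_zero (pow_ne_zero _ (valM_det b0 (inc k ι) ι (inc_apply k ι hι)))
      (pow_ne_zero _ (valM_det b0' (inc k ι') ι' (inc_apply k ι' hι'))) h1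
  have hdet' : ((algebraMap O L').mapMatrix MO).det ≠ 0 := by
    rw [← RingHom.map_det, Ne, map_eq_zero_iff _ hinj]
    exact hdet
  have hpt : ∀ i ∉ Bl, ∀ S S' : A × A, algebraMap O L' (ptO S i) = algebraMap O L' (ptO S' i) := by
    rintro ⟨r, c⟩ hi S S'
    have hi' : ∀ j : L ⊕ L, ¬(eR r = Sum.map Sum.inl Sum.inl j ∧
      eC c = Sum.map Sum.inl Sum.inl j) := fun j hj => hi ((hBl _).2 ⟨j, hj⟩)
    have : ptk S (r, c) = ptk S' (r, c) := by
      simp only [ptk, M, twoM]
      generalize eR r = r' at *
      generalize eC c = c' at *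
      rcases r' with (r' | r') | (r' | r') <;> rcases c' with (c' | c') | (c' | c') <;>
        simp only [Matrix.fromBlocks_apply₁₁, Matrix.fromBlocks_apply₁₂,
          Matrix.fromBlocks_apply₂₁, Matrix.fromBlocks_apply₂₂, gmat, Matrix.of_apply,
          Matrix.transpose_apply]
      · have : c' ≠ r' := fun h => hi' (Sum.inl r') (by subst h; simp)
        rw [if_neg this, if_neg this]
      · have : r' ≠ c' := fun h => hi' (Sum.inr r') (by subst h; simp)
        rw [if_neg this, if_neg this]
    simp only [ptO, this]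
  have hw : ∀ a, w a ∉ Bl := by
    intro a ha
    rw [hBl] at ha
    obtain ⟨j, hj, _⟩ := ha
    simp only [w, Equiv.apply_symm_apply] at hj
    rcases j with j | j <;> simp at hj
  obtain ⟨U, hU, hmem⟩ := kal ψ Bl (fun (S : A × A) q => algebraMap O L' (ptO S q)) hpt w hw F
  have hrow : ∀ S : A × A, ((algebraMap O L').mapMatrix MO) S ∈ U := by
    intro S
    have h1 : ((algebraMap O L').mapMatrix MO) S = fun a =>
        eval (fun q => algebraMap O L' (ptO S q)) (pderiv (w a) (map ψ F.poly)) := by
      funext a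
      rw [← hF1, pderiv_map, RingHom.mapMatrix_apply, Matrix.map_apply]
      simp only [MO, Matrix.of_apply]
      rw [hom_eval']
    rw [h1]
    exact hmem S
  have hli := Matrix.linearIndependent_rows_of_det_ne_zero hdet'
  have hli' : LinearIndependent L' (fun S : A × A => (⟨((algebraMap O L').mapMatrix MO) S,
      hrow S⟩ : U)) := by
    apply LinearIndependent.of_comp U.subtype
    exact hli
  have hcard := hli'.fintype_card_le_finrank
  have h4 : Fintype.card (A × A) = 4 ^ Fintype.card L := by
    rw [Fintype.card_prod, Fintype.card_finset, ← pow_add, ← two_mul, pow_mul]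
    norm_num
  rw [h4] at hcard
  exact hcard.trans hU

end Pool.Agent.FormPer
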