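import Pool.Agent.FormPer.Block

/-!
The lower bound for one block in terms of nonsingular matrices of partial derivatives.
-/

namespace Pool.Agent.FormPer

open MvPolynomial Finset Module
open Pool.Agent.H53.AC
open scoped Kronecker

universe u v w

/-- If `F` over `k(ε)` specializes to the permanent, then over `Frac k[[ε]]` there is a nonsingular
matrix of size `4 ^ l` of partial derivatives of `F` with respect to variables outside the block, at
points that differ only in the block. -/
theorem block_core {k : Type u} [Field k] [CharZero k] {n : ℕ}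
    (F : MvPolynomial (Fin n × Fin n) (RatFunc k))
    (hF : ∀ m, SpecializesTo (coeff m F) (coeff m (perPoly n k)))
    {L B B' : Type} [Fintype L] [DecidableEq L] [Fintype B] [DecidableEq B]
    [Fintype B'] [DecidableEq B'] (ι : Finset L → B) (hι : Function.Injective ι)
    (ι' : Finset L → B') (hι' : Function.Injective ι')
    (eR eC : Fin n ≃ (L ⊕ B) ⊕ (L ⊕ B')) (Bl : Finset (Fin n × Fin n))
    (hBl : ∀ q : Fin n × Fin n, q ∈ Bl ↔ ∃ j : L ⊕ L, eR q.1 = Sum.map Sum.inl Sum.inl j ∧
      eC q.2 = Sum.map Sum.inl Sum.inl j) :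
    ∃ (ψ : RatFunc k →+* FractionRing (PowerSeries k))
      (pt : Finset L × Finset L → Fin n × Fin n → FractionRing (PowerSeries k))
      (w : Finset L × Finset L → Fin n × Fin n),
      (∀ i ∉ Bl, ∀ S S', pt S i = pt S' i) ∧ (∀ a, w a ∉ Bl) ∧
      (Matrix.of fun S a => eval (pt S) (pderiv (w a) (map ψ F))).det ≠ 0 := by
  classical
  obtain ⟨ψ, F', hF1, hF2⟩ := exists_lift (perPoly n k) F hF
  let O := PowerSeries k
  let L' := FractionRing (PowerSeries k)
  have hinj : Function.Injective (algebraMap O L') := IsFractionRing.injective _ _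
  let A := Finset L
  let b0 : B := ι ∅
  let b0' : B' := ι' ∅
  let M : A × A → Matrix ((L ⊕ B) ⊕ (L ⊕ B')) ((L ⊕ B) ⊕ (L ⊕ B')) k := fun S =>
    twoM b0 b0' (inc k ι) (inc k ι') (pt01 k S.1) (pt01 k S.2)
  let ptk : A × A → Fin n × Fin n → k := fun S q => M S (eR q.1) (eC q.2)
  let w : A × A → Fin n × Fin n := fun a =>
    (eR.symm (Sum.inl (Sum.inr (ι a.1))), eC.symm (Sum.inr (Sum.inr (ι' a.2))))
  let ptO : A × A → Fin n × Fin n → O := fun S q => PowerSeries.C (ptk S q)
  let MO : Matrix (A × A) (A × A) O := Matrix.of fun S a => eval (ptO S) (pderiv (w a) F')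
  -- reduction
  have hk : (PowerSeries.constantCoeff (R := k)).mapMatrix MO =
      valM k b0 (inc k ι) ι ⊗ₖ valM k b0' (inc k ι') ι' := by
    ext ⟨S, S'⟩ ⟨a, d⟩
    rw [RingHom.mapMatrix_apply, Matrix.map_apply, Matrix.kroneckerMap_apply]
    simp only [MO, Matrix.of_apply, valM]
    rw [← twoM_minor b0 b0' (inc k ι) (inc k ι') (pt01 k S) (pt01 k S') (ι a) (ι' d)]
    have h1 := eval_pderiv_perPoly eR eC (M (S, S')) (w (a, d))
    simp only [w, Equiv.apply_symm_apply] at h1
    rw [← h1, ← hF2, pderiv_map, hom_eval']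
    congr 2
  have hdet : MO.det ≠ 0 := by
    intro h0
    have h1 := congrArg (PowerSeries.constantCoeff (R := k)) h0
    rw [RingHom.map_det, hk, map_zero, Matrix.det_kronecker] at h1
    exact mul_ne_zero (pow_ne_zero _ (valM_det b0 (inc k ι) ι (inc_apply k ι hι)))
      (pow_ne_zero _ (valM_det b0' (inc k ι') ι' (inc_apply k ι' hι'))) h1
  have hdet' : ((algebraMap O L').mapMatrix MO).det ≠ 0 := by
    rw [← RingHom.map_det, Ne, map_eq_zero_iff _ hinj]
    exact hdet
  refine ⟨ψ, fun S q => algebraMap O L' (ptO S q), w, ?_, ?_, ?_⟩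
  · rintro ⟨r, c⟩ hi S S'
    have hi' : ∀ j : L ⊕ L, ¬(eR r = Sum.map Sum.inl Sum.inl j ∧
      eC c = Sum.map Sum.inl Sum.inl j) := fun j hj => hi ((hBl _).2 ⟨j, hj⟩)
    have : ptk S (r, c) = ptk S' (r, c) := by
      simp only [ptk, M, twoM]
      generalize eR r = r' at *
      generalize eC c = c' at *
      rcases r' with (r' | r') | (r' | r') <;> rcases c' with (c' | c') | (c' | c') <;>
        simp only [Matrix.fromBlocks_apply₁₁, Matrix.fromBlocks_apply₁₂,
          Matrix.fromBlocks_apply₂₁, Matrix.fromBlocks_apply₂₂, gmat, Matrix.of_apply,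
          Matrix.transpose_apply]
      · have : c' ≠ r' := fun h => hi' (Sum.inl r') (by subst h; simp)
        rw [if_neg this, if_neg this]
      · have : r' ≠ c' := fun h => hi' (Sum.inr r') (by subst h; simp)
        rw [if_neg this, if_neg this]
    simp only [ptO, this]
  · intro a ha
    rw [hBl] at ha
    obtain ⟨j, hj, _⟩ := ha
    simp only [w, Equiv.apply_symm_apply] at hj
    rcases j with j | j <;> simp at hj
  · have h1 : (Matrix.of fun (S : A × A) (a : A × A) => eval (fun q => algebraMap O L' (ptO S q))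
        (pderiv (w a) (map ψ F))) = (algebraMap O L').mapMatrix MO := by
      ext S a
      change eval (fun q => algebraMap O L' (ptO S q)) (pderiv (w a) (map ψ F)) =
        algebraMap O L' (MO S a)
      rw [← hF1, pderiv_map]
      simp only [MO, Matrix.of_apply]
      rw [hom_eval']
    rw [h1]
    exact hdet'

end Pool.Agent.FormPer
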