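import Mathlib
import Pool.Agent.H53.AC.Defs

/-!
Definitions for the lower bound on the formula size of the permanent (MP_9ce8c8_lc).
-/

namespace Pool.Agent.FormPer

open MvPolynomial
open Pool.Agent.H53.AC

universe u v

/-- Division-free arithmetic formulas over `K`: trees whose leaves are labelled with variables from
`σ` or constants from `K` and whose inner nodes are labelled with `+`, `-` or `×`. -/
inductive Formula (K : Type u) (σ : Type v) : Type (max u v)
  | var (i : σ) : Formula K σ
  | const (c : K) : Formula K σ
  | add (f g : Formula K σ) : Formula K σ
  | sub (f g : Formula K σ) : Formula K σ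
  | mul (f g : Formula K σ) : Formula K σ

namespace Formula

variable {K : Type u} {σ : Type v}

/-- The polynomial computed by a formula. -/
noncomputable def poly [CommRing K] : Formula K σ → MvPolynomial σ K
  | var i => X i
  | const c => C c
  | add f g => f.poly + g.poly
  | sub f g => f.poly - g.poly
  | mul f g => f.poly * g.poly

/-- The number of leaves of a formula that are labelled with variables. -/
def size : Formula K σ → ℕ
  | var _ => 1
  | const _ => 0
  | add f g => f.size + g.size
  | sub f g => f.size + g.size
  | mul f g => f.size + g.size

/-- The number of leaves of a formula that are labelled with variables in `B`. -/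
def occ [DecidableEq σ] (B : Finset σ) : Formula K σ → ℕ
  | var i => if i ∈ B then 1 else 0
  | const _ => 0
  | add f g => f.occ B + g.occ B
  | sub f g => f.occ B + g.occ B
  | mul f g => f.occ B + g.occ B

/-- Disjoint sets of variables share the leaves. -/
theorem sum_occ_le [DecidableEq σ] {ι : Type*} (s : Finset ι) (B : ι → Finset σ)
    (hB : (s : Set ι).PairwiseDisjoint B) (F : Formula K σ) :
    ∑ j ∈ s, F.occ (B j) ≤ F.size := by
  induction F with
  | var i =>
    simp only [occ, size]
    rw [Finset.sum_boole, Nat.cast_id]
    rw [Finset.card_le_one]
    intro a ha b hb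
    rw [Finset.mem_filter] at ha hb
    by_contra hab
    exact Finset.disjoint_left.1 (hB (Finset.mem_coe.2 ha.1) (Finset.mem_coe.2 hb.1) hab) ha.2 hb.2
  | const c => simp [occ, size]
  | add f g hf hg => simp only [occ, size, Finset.sum_add_distrib]; omega
  | sub f g hf hg => simp only [occ, size, Finset.sum_add_distrib]; omega
  | mul f g hf hg => simp only [occ, size, Finset.sum_add_distrib]; omega

end Formula

/-- The permanent of the generic `n × n` matrix. -/
noncomputable def perPoly (n : ℕ) (k : Type u) [Field k] : MvPolynomial (Fin n × Fin n) k :=
  Matrix.permanent (Matrix.of fun i j => X (i, j))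

/-- Some formula with at most `s` leaves labelled with variables computes `f`. -/
def FormulaLE {k : Type u} [Field k] {σ : Type v} (f : MvPolynomial σ k) (s : ℕ) : Prop :=
  ∃ F : Formula k σ, F.size ≤ s ∧ F.poly = f

/-- Some formula over `k(ε)` with at most `s` leaves labelled with variables computes `f`
approximatively: it computes a polynomial over `k(ε)` whose coefficients are defined at `ε = 0` and
take there the values of the coefficients of `f`. -/
def BorderFormulaLE {k : Type u} [Field k] {σ : Type v} (f : MvPolynomial σ k) (s : ℕ) : Prop :=
  ∃ F : Formula (RatFunc k) σ, F.size ≤ s ∧ ∀ m, SpecializesTo (coeff m F.poly) (coeff m f)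

end Pool.Agent.FormPer
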