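import Mathlib

/-!
Determinants of `M₀ + U X V` over a square-zero extension.
-/

namespace Pool.Agent.FormPer

open Module

universe u v w

section

variable {K : Type u} [Field K] {W : Type v} [Fintype W]

/-- The elements whose infinitesimal part lies in `T`. -/
def sndSub (T : Submodule K (W → K)) : Subalgebra K (TrivSqZeroExt K (W → K)) where
  carrier := {a | a.snd ∈ T}
  mul_mem' := by
    intro a b ha hb
    simp only [Set.mem_ofPred_eq] at *
    rw [TrivSqZeroExt.snd_mul]
    refine T.add_mem (T.smul_mem _ hb) ?_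
    rw [op_smul_eq_smul]
    exact T.smul_mem _ ha
  add_mem' := by
    intro a b ha hb
    simp only [Set.mem_ofPred_eq, TrivSqZeroExt.snd_add] at *
    exact T.add_mem ha hb
  algebraMap_mem' := by
    intro r
    simp only [Set.mem_ofPred_eq]
    rw [TrivSqZeroExt.algebraMap_eq_inl]
    simp

omit [Fintype W] in
theorem mem_sndSub {T : Submodule K (W → K)} {a : TrivSqZeroExt K (W → K)} :
    a ∈ sndSub T ↔ a.snd ∈ T := Iff.rfl

theorem det_mem_sub {R : Type*} [Fintype R] [DecidableEq R] {A : Type*} [CommRing A] [Algebra K A]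
    (S : Subalgebra K A) (M : Matrix R R A) (hM : ∀ i j, M i j ∈ S) : M.det ∈ S := by
  rw [Matrix.det_apply]
  refine S.sum_mem fun σ _ => ?_
  rcases Int.units_eq_one_or (Equiv.Perm.sign σ) with h | h
  · rw [h, one_smul]
    exact S.prod_mem fun i _ => hM _ _
  · rw [h, Units.smul_def, Units.val_neg, Units.val_one, neg_smul, one_smul]
    exact S.neg_mem (S.prod_mem fun i _ => hM _ _)

theorem det_space {m : Type*} [Fintype m] [DecidableEq m] {R : Type*} [Fintype R] [DecidableEq R]
    (M0 : Matrix m m (TrivSqZeroExt K (W → K))) (h0 : IsUnit M0.det) (U : Matrix m R K)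
    (V : Matrix R m K) :
    ∃ T : Submodule K (W → K), finrank K T ≤ Fintype.card R ^ 2 + 1 ∧
      ∀ X : Matrix R R K, (M0 + (U * X * V).map (TrivSqZeroExt.inlHom K (W → K))).det.snd ∈ T := by
  classical
  let f : K →+* TrivSqZeroExt K (W → K) := TrivSqZeroExt.inlHom K (W → K)
  let S : Matrix R R (TrivSqZeroExt K (W → K)) := V.map f * M0⁻¹ * U.map f
  let T0 : Submodule K (W → K) :=
    Submodule.span K (((Finset.univ : Finset (R × R)).image fun p => (S p.1 p.2).snd :
      Finset (W → K)) : Set (W → K))
  let T1 : Submodule K (W → K) := Submodule.span K (({M0.det.snd} : Finset (W → K)) : Set (W → K))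
  have hT0 : finrank K T0 ≤ Fintype.card R ^ 2 := by
    refine (finrank_span_finset_le_card (R := K) _).trans (Finset.card_image_le.trans ?_)
    rw [Finset.card_univ, Fintype.card_prod, sq]
  have hT1 : finrank K T1 ≤ 1 := by
    refine (finrank_span_finset_le_card (R := K) _).trans ?_
    simp
  refine ⟨T0 ⊔ T1, (Submodule.finrank_add_le_finrank_add_finrank T0 T1).trans (by omega), ?_⟩
  intro X
  have h1 : M0 + (U * X * V).map f = M0 * (1 + (M0⁻¹ * U.map f) * (X.map f * V.map f)) := by
    rw [Matrix.mul_add, Matrix.mul_one, Matrix.map_mul, Matrix.map_mul]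
    simp only [Matrix.mul_assoc]
    rw [← Matrix.mul_assoc M0, Matrix.mul_nonsing_inv M0 h0, Matrix.one_mul]
  have h2 : (M0 + (U * X * V).map f).det = M0.det * (1 + X.map f * S).det := by
    rw [h1, Matrix.det_mul, Matrix.det_one_add_mul_comm]
    simp only [S, Matrix.mul_assoc]
  change (M0 + (U * X * V).map f).det.snd ∈ _
  rw [h2, TrivSqZeroExt.snd_mul]
  have h3 : (1 + X.map f * S).det ∈ sndSub T0 := by
    apply det_mem_sub
    intro i j
    rw [Matrix.add_apply]
    refine (sndSub T0).add_mem ?_ ?_
    · rw [Matrix.one_apply]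
      split_ifs
      · exact (sndSub T0).one_mem
      · exact (sndSub T0).zero_mem
    · rw [Matrix.mul_apply]
      refine (sndSub T0).sum_mem fun l _ => (sndSub T0).mul_mem ?_ ?_
      · rw [Matrix.map_apply, mem_sndSub]
        simp [f]
      · rw [mem_sndSub]
        apply Submodule.subset_span
        rw [Finset.coe_image]
        exact ⟨(l, j), by simp, rfl⟩
  rw [op_smul_eq_smul]
  refine Submodule.add_mem _ ?_ ?_
  · exact Submodule.mem_sup_left (T0.smul_mem _ h3)
  · exact Submodule.mem_sup_right (T1.smul_mem _ (Submodule.subset_span (by simp)))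

end

/-- Rank factorization. -/
theorem rank_fact {K : Type u} [Field K] {m : Type*} [Fintype m] [DecidableEq m]
    (M : Matrix m m K) : ∃ (U : Matrix m (Fin M.rank) K) (V : Matrix (Fin M.rank) m K),
      M = U * V := by
  let P := LinearMap.range M.mulVecLin
  have hP : finrank K P = M.rank := rfl
  let b : Basis (Fin M.rank) K P := finBasisOfFinrankEq K P hP
  refine ⟨Matrix.of fun i j => (b j : m → K) i,
    Matrix.of fun j c => b.repr ⟨M.mulVecLin (Pi.single c 1), ⟨_, rfl⟩⟩ j, ?_⟩
  ext i c
  rw [Matrix.mul_apply]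
  simp only [Matrix.of_apply]
  have h1 := b.sum_repr ⟨M.mulVecLin (Pi.single c 1), ⟨_, rfl⟩⟩
  have h2 := congrArg (fun x : P => (x : m → K) i) h1
  simp only [AddSubmonoidClass.coe_finsetSum, Submodule.coe_smul, Finset.sum_apply,
    Pi.smul_apply, smul_eq_mul] at h2
  have h3 : M i c = M.mulVecLin (Pi.single c 1) i := by
    rw [Matrix.mulVecLin_apply, Matrix.mulVec_single_one, Matrix.col_apply]
  refine h3.trans (h2.symm.trans (Finset.sum_congr rfl fun j _ => ?_))
  exact mul_comm _ _

end Pool.Agent.FormPer
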