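import Pool.Agent.FormPer.Defs

/-!
Definitions for the lower bound on the coefficient ranks in determinantal representations of the
permanent (MP_9ce8c8_lc).
-/

namespace Pool.Agent.FormPer

open MvPolynomial
open Pool.Agent.H53.AC

universe u v w

/-- The matrix of the coefficients of the variable `v` in the entries of `A`. -/
noncomputable def coeffMat {K : Type u} [CommSemiring K] {σ : Type v} {m : Type w}
    (A : Matrix m m (MvPolynomial σ K)) (v : σ) : Matrix m m K :=
  Matrix.of fun i j => coeff (Finsupp.single v 1) (A i j)

/-- `f` is the determinant of a square matrix (of any size) with entries of total degree at most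
`1`, such that the sum, over all variables `v`, of the ranks of the matrices of the coefficients of
`v` is at most `s`. -/
def DetRankLE {k : Type u} [Field k] {σ : Type v} [Fintype σ] (f : MvPolynomial σ k) (s : ℕ) :
    Prop :=
  ∃ (m : ℕ) (A : Matrix (Fin m) (Fin m) (MvPolynomial σ k)), (∀ i j, (A i j).totalDegree ≤ 1) ∧
    A.det = f ∧ ∑ v, (coeffMat A v).rank ≤ s

/-- The approximative version: the matrix is over `k(ε)`, and the coefficients of its determinant
are defined at `ε = 0` and take there the values of the coefficients of `f`. -/
def BorderDetRankLE {k : Type u} [Field k] {σ : Type v} [Fintype σ] (f : MvPolynomial σ k)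
    (s : ℕ) : Prop :=
  ∃ (m : ℕ) (A : Matrix (Fin m) (Fin m) (MvPolynomial σ (RatFunc k))),
    (∀ i j, (A i j).totalDegree ≤ 1) ∧ (∀ μ, SpecializesTo (coeff μ A.det) (coeff μ f)) ∧
      ∑ v, (coeffMat A v).rank ≤ s

end Pool.Agent.FormPer
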