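import Pool.Agent.FormPer.DetKal

/-!
The same without an invertible base matrix, by a perturbation over `K[X]`.
-/

namespace Pool.Agent.FormPer

open MvPolynomial Module

universe u v w

theorem totalDegree_map_le' {K K' : Type*} [CommSemiring K] [CommSemiring K'] {σ : Type*}
    (φ : K →+* K') (f : MvPolynomial σ K) : (map φ f).totalDegree ≤ f.totalDegree := by
  rw [totalDegree, totalDegree]
  exact Finset.sup_mono (support_map_subset φ f)

section pert

variable {K : Type u} [Field K] {σ : Type v} {m : Type w} [Fintype m] [DecidableEq m]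

/-- The matrix `A + X • 1` over `K[X]`. -/
noncomputable def pert (A : Matrix m m (MvPolynomial σ K)) :
    Matrix m m (MvPolynomial σ (Polynomial K)) :=
  Matrix.of fun i j => map Polynomial.C (A i j) + if i = j then C Polynomial.X else 0

theorem pert_zero (A : Matrix m m (MvPolynomial σ K)) :
    map (Polynomial.evalRingHom 0) (pert A).det = A.det := by
  rw [RingHom.map_det]
  congr 1
  ext1 i j
  rw [RingHom.mapMatrix_apply]
  change map (Polynomial.evalRingHom 0) (map Polynomial.C (A i j) +
    if i = j then C Polynomial.X else 0) = A i j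
  rw [map_add, map_map]
  have h1 : (Polynomial.evalRingHom (0 : K)).comp Polynomial.C = RingHom.id K := by
    ext x; simp
  rw [h1, map_id]
  split_ifs <;> simp

omit [Fintype m] in
theorem pert_degree {Q : Type*} [CommRing Q] (g : Polynomial K →+* Q)
    (A : Matrix m m (MvPolynomial σ K)) (hA : ∀ i j, (A i j).totalDegree ≤ 1) (i j : m) :
    (map g (pert A i j)).totalDegree ≤ 1 := by
  refine (totalDegree_map_le' _ _).trans ?_
  refine (totalDegree_add _ _).trans (max_le ((totalDegree_map_le' _ _).trans (hA i j)) ?_)
  split_ifs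
  · rw [totalDegree_C]; exact Nat.zero_le _
  · rw [totalDegree_zero]; exact Nat.zero_le _

omit [Fintype m] in
theorem pert_coeffMat {Q : Type*} [CommRing Q] (g : Polynomial K →+* Q)
    (A : Matrix m m (MvPolynomial σ K)) (v : σ) :
    coeffMat ((pert A).map (map g)) v = (coeffMat A v).map (g.comp Polynomial.C) := by
  classical
  ext1 i j
  change coeff (Finsupp.single v 1) (map g (map Polynomial.C (A i j) +
    if i = j then C Polynomial.X else 0)) = g (Polynomial.C (coeff (Finsupp.single v 1) (A i j)))
  rw [coeff_map, coeff_add, coeff_map]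
  have h3 : coeff (Finsupp.single v 1)
      (if i = j then (C Polynomial.X : MvPolynomial σ (Polynomial K)) else 0) = 0 := by
    split_ifs
    · rw [coeff_C, if_neg]
      intro h0
      have := DFunLike.congr_fun h0 v
      rw [Finsupp.single_eq_same] at this
      exact zero_ne_one this
    · exact coeff_zero _
  rw [h3, add_zero]

omit [Fintype m] in
theorem eval_pert_apply (A : Matrix m m (MvPolynomial σ K)) (y : σ → K) (i j : m) :
    eval (fun i => Polynomial.C (y i)) (pert A i j) =
      Polynomial.C (eval y (A i j)) + if i = j then Polynomial.X else 0 := by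
  rw [pert, Matrix.of_apply, map_add]
  congr 1
  · exact (hom_eval' Polynomial.C y (A i j)).symm
  · split_ifs
    · exact eval_C _
    · exact map_zero _

theorem pert_eval (A : Matrix m m (MvPolynomial σ K)) (y : σ → K) :
    eval (fun i => Polynomial.C (y i)) (pert A).det ≠ 0 := by
  have h4 : (eval fun i => Polynomial.C (y i)).mapMatrix (pert A) =
      Matrix.charmatrix (Matrix.of fun i j => -(eval y (A i j))) := by
    ext1 i j
    rw [RingHom.mapMatrix_apply, Matrix.map_apply, eval_pert_apply]
    by_cases hij : i = j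
    · subst hij
      rw [if_pos rfl, Matrix.charmatrix_apply_eq, Matrix.of_apply, Polynomial.C_neg,
        sub_neg_eq_add, add_comm]
    · rw [if_neg hij, add_zero, Matrix.charmatrix_apply_ne _ _ _ hij, Matrix.of_apply,
        Polynomial.C_neg, neg_neg]
  rw [RingHom.map_det, h4]
  exact (Matrix.charpoly_monic (Matrix.of fun i j => -(eval y (A i j)))).ne_zero

end pert

section general

variable {K : Type u} [Field K] {σ : Type v} [Fintype σ] [DecidableEq σ] {m : Type w} [Fintype m]
  [DecidableEq m]

theorem det_kal {Q : Type u} [Field Q] (g : Polynomial K →+* Q) (hg : Function.Injective g)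
    (A : Matrix m m (MvPolynomial σ K)) (hA : ∀ i j, (A i j).totalDegree ≤ 1)
    (Bl : Finset σ) (ρ : σ → ℕ) (U : ∀ v, Matrix m (Fin (ρ v)) K) (V : ∀ v, Matrix (Fin (ρ v)) m K)
    (hUV : ∀ v ∈ Bl, coeffMat A v = U v * V v) {T : Type} [Fintype T] [DecidableEq T]
    (pt : T → σ → K) (hpt : ∀ i ∉ Bl, ∀ S S', pt S i = pt S' i) (w : T → σ)
    (hw : ∀ a, w a ∉ Bl)
    (hdet : (Matrix.of fun S a => eval (pt S) (pderiv (w a) A.det)).det ≠ 0) :
    Fintype.card T ≤ (∑ v ∈ Bl, ρ v) ^ 2 + 1 := by
  classical
  rcases isEmpty_or_nonempty T with hX | ⟨⟨S0⟩⟩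
  · rw [Fintype.card_eq_zero]; exact Nat.zero_le _
  let Mδ : Matrix T T (Polynomial K) := Matrix.of fun S a =>
    eval (fun i => Polynomial.C (pt S i)) (pderiv (w a) (pert A).det)
  have h1 : Mδ.det ≠ 0 := by
    intro h0
    apply hdet
    have h2 := congrArg (Polynomial.evalRingHom (0 : K)) h0
    rw [map_zero, RingHom.map_det] at h2
    rw [← h2]
    congr 1
    ext1 S a
    rw [RingHom.mapMatrix_apply]
    change eval (pt S) (pderiv (w a) A.det) = Polynomial.evalRingHom 0
      (eval (fun i => Polynomial.C (pt S i)) (pderiv (w a) (pert A).det))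
    rw [hom_eval', ← pderiv_map, pert_zero]
    congr 2
    funext i
    simp
  have h2 : (g.mapMatrix Mδ).det ≠ 0 := by
    rw [← RingHom.map_det, Ne, map_eq_zero_iff _ hg]
    exact h1
  have hAQ : ((pert A).map (map g)).det = map g (pert A).det := by
    rw [RingHom.map_det]; rfl
  have hUVQ : ∀ v ∈ Bl, coeffMat ((pert A).map (map g)) v =
      (U v).map (g.comp Polynomial.C) * (V v).map (g.comp Polynomial.C) := by
    intro v hv
    rw [← Matrix.map_mul, ← hUV v hv, pert_coeffMat]
  let y : σ → K := fun i => if i ∈ Bl then 0 else pt S0 i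
  have hinv : eval (fun i => g (Polynomial.C (y i))) ((pert A).map (map g)).det ≠ 0 := by
    rw [hAQ, ← hom_eval' g (fun i => Polynomial.C (y i)), Ne, map_eq_zero_iff _ hg]
    exact pert_eval A y
  obtain ⟨T', hT', hmem⟩ := det_kal_inv ((pert A).map (map g)) (pert_degree g A hA) Bl ρ
    (fun v => (U v).map (g.comp Polynomial.C)) (fun v => (V v).map (g.comp Polynomial.C))
    hUVQ (fun i => g (Polynomial.C (y i))) (fun i hi => by simp [y, hi])
    (fun S i => g (Polynomial.C (pt S i)))
    (fun S i hi => by simp only [y, if_neg hi, hpt i hi S S0]) w hw hinv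
  have hrow : ∀ S : T, (g.mapMatrix Mδ) S ∈ T' := by
    intro S
    have h5 : (g.mapMatrix Mδ) S = fun a => eval (fun i => g (Polynomial.C (pt S i)))
        (pderiv (w a) ((pert A).map (map g)).det) := by
      funext a
      rw [hAQ, pderiv_map]
      change g (eval (fun i => Polynomial.C (pt S i)) (pderiv (w a) (pert A).det)) = _
      rw [hom_eval']
    rw [h5]
    exact hmem S
  have hli := Matrix.linearIndependent_rows_of_det_ne_zero h2
  have hli' : LinearIndependent Q (fun S : T => (⟨(g.mapMatrix Mδ) S, hrow S⟩ : T')) := by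
    apply LinearIndependent.of_comp T'.subtype
    exact hli
  exact hli'.fintype_card_le_finrank.trans hT'

end general

end Pool.Agent.FormPer
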