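import Pool.Agent.FormPer.Block

/-!
Assembly: the lower bound for the formula size of the permanent.
-/

namespace Pool.Agent.FormPer

open MvPolynomial Finset Module
open Pool.Agent.H53.AC

universe u v w

theorem exists_extend {α β γ : Type*} [Fintype α] [Fintype β] [DecidableEq β]
    (h : Fintype.card α = Fintype.card β)
    (f : γ → α) (g : γ → β) (hf : Function.Injective f) (hg : Function.Injective g) :
    ∃ e : α ≃ β, ∀ c, e (f c) = g c := by
  classical
  let e0 : α ≃ β := Fintype.equivOfCardEq h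
  have hf' : Function.Injective (fun c => e0 (f c)) := e0.injective.comp hf
  let t : {x // x ∈ Set.range (fun c => e0 (f c))} ≃ {x // x ∈ Set.range g} :=
    (Equiv.ofInjective _ hf').symm.trans (Equiv.ofInjective g hg)
  refine ⟨e0.trans (Equiv.extendSubtype t), fun c => ?_⟩
  rw [Equiv.trans_apply, Equiv.extendSubtype_apply_of_mem t (e0 (f c)) ⟨c, rfl⟩]
  simp only [t, Equiv.trans_apply]
  have h1 : (Equiv.ofInjective _ hf').symm ⟨e0 (f c), ⟨c, rfl⟩⟩ = c :=
    Equiv.ofInjective_symm_apply hf' c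
  rw [h1]
  rfl

/-- The combinatorial form: with blocks of size `2 l` there are `n * Q` of them. -/
theorem size_bound {k : Type u} [Field k] [CharZero k] {n l Q : ℕ} (hl : 1 ≤ l)
    (hn : 2 * l + 2 * 2 ^ l ≤ n) (hQ : Q * (2 * l) ≤ n)
    (F : Formula (RatFunc k) (Fin n × Fin n))
    (hF : ∀ m, SpecializesTo (coeff m F.poly) (coeff m (perPoly n k))) :
    Q * n * 4 ^ (l - 1) ≤ F.size := by
  classical
  have hn0 : NeZero n := ⟨by have := Nat.one_le_two_pow (n := l); omega⟩
  let L := Fin l
  let B := Finset L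
  obtain ⟨z, hz⟩ := Nat.exists_eq_add_of_le hn
  let B' := Finset L ⊕ Fin z
  have hcardI : Fintype.card (Fin n) = Fintype.card ((L ⊕ B) ⊕ (L ⊕ B')) := by
    simp only [L, B, B', Fintype.card_sum, Fintype.card_fin, Fintype.card_finset]
    omega
  obtain ⟨j⟩ : Nonempty (Fin Q × (L ⊕ L) ↪ Fin n) := by
    apply Function.Embedding.nonempty_of_card_le
    simp only [L, Fintype.card_prod, Fintype.card_sum, Fintype.card_fin]
    rw [← two_mul]; exact hQ
  have hg : Function.Injective (Sum.map (Sum.inl : L → L ⊕ B) (Sum.inl : L → L ⊕ B')) :=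
    Sum.map_injective.2 ⟨Sum.inl_injective, Sum.inl_injective⟩
  have hext : ∀ q : Fin Q, ∃ e : Fin n ≃ (L ⊕ B) ⊕ (L ⊕ B'), ∀ i : L ⊕ L,
      e (j (q, i)) = Sum.map Sum.inl Sum.inl i := by
    intro q
    refine exists_extend hcardI (fun i => j (q, i)) _ ?_ hg
    intro i i' h
    exact (Prod.ext_iff.1 (j.injective h)).2
  choose e he using hext
  let Bl : Fin Q × Fin n → Finset (Fin n × Fin n) := fun p =>
    univ.filter (fun q : Fin n × Fin n => ∃ i : L ⊕ L, q.1 = j (p.1, i) ∧ q.2 - p.2 = j (p.1, i))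
  have hocc : ∀ p, 4 ^ (l - 1) ≤ F.occ (Bl p) := by
    intro p
    have h1 := block_bound F hF (L := L) (B := B) (B' := B') (id : Finset L → B)
      Function.injective_id (Sum.inl : Finset L → B') Sum.inl_injective (e p.1)
      ((Equiv.subRight p.2).trans (e p.1)) (Bl p) (by
        intro q
        simp only [Bl, mem_filter, mem_univ, true_and, Equiv.trans_apply, Equiv.subRight_apply]
        refine exists_congr fun i => ?_
        rw [← he p.1 i, (e p.1).apply_eq_iff_eq, (e p.1).apply_eq_iff_eq])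
    rw [Fintype.card_fin] at h1
    obtain ⟨l', rfl⟩ := Nat.exists_eq_add_of_le' hl
    rw [Nat.add_sub_cancel]
    rw [pow_succ] at h1
    omega
  have hdisj : ((univ : Finset (Fin Q × Fin n)) : Set (Fin Q × Fin n)).PairwiseDisjoint Bl := by
    intro p _ p' _ hpp
    rw [Function.onFun, Finset.disjoint_left]
    intro q hq hq'
    simp only [Bl, mem_filter, mem_univ, true_and] at hq hq'
    obtain ⟨i, h1, h2⟩ := hq
    obtain ⟨i', h1', h2'⟩ := hq'
    have h3 := j.injective (h1.symm.trans h1')
    apply hpp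
    refine Prod.ext (Prod.ext_iff.1 h3).1 ?_
    have h4 : q.2 - p.2 = q.2 - p'.2 := by rw [h2, h2', ← h1, ← h1']
    exact sub_right_injective h4
  have hsum := Formula.sum_occ_le univ Bl hdisj F
  refine le_trans ?_ hsum
  calc Q * n * 4 ^ (l - 1) = ∑ _p : Fin Q × Fin n, 4 ^ (l - 1) := by
        simp [Finset.sum_const]
    _ ≤ _ := Finset.sum_le_sum fun p _ => hocc p

theorem pderiv_of_occ {K : Type u} [CommRing K] {σ : Type v} [DecidableEq σ] (v : σ)
    (F : Formula K σ) (h : F.occ {v} = 0) : pderiv v F.poly = 0 := by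
  induction F with
  | var i =>
    have : i ≠ v := fun h' => by simp [Formula.occ, h'] at h
    simp [Formula.poly, pderiv_X_of_ne this]
  | const c => simp [Formula.poly]
  | add f g hf hg =>
    simp only [Formula.occ, Nat.add_eq_zero_iff] at h
    simp [Formula.poly, hf h.1, hg h.2]
  | sub f g hf hg =>
    simp only [Formula.occ, Nat.add_eq_zero_iff] at h
    simp [Formula.poly, hf h.1, hg h.2]
  | mul f g hf hg =>
    simp only [Formula.occ, Nat.add_eq_zero_iff] at h
    simp [Formula.poly, hf h.1, hg h.2]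

theorem pderiv_perPoly_ne_zero {k : Type u} [Field k] {n : ℕ} (v : Fin n × Fin n) :
    pderiv v (perPoly n k) ≠ 0 := by
  intro h
  have h1 := eval_pderiv_perPoly (k := k) (Equiv.refl (Fin n)) (Equiv.refl (Fin n))
    ((1 : Matrix (Fin n) (Fin n) k).submatrix (Equiv.swap v.1 v.2) id) v
  rw [h, map_zero] at h1
  have h2 : (((1 : Matrix (Fin n) (Fin n) k).submatrix (Equiv.swap v.1 v.2) id).updateCol
      ((Equiv.refl (Fin n)) v.2) (Pi.single ((Equiv.refl (Fin n)) v.1) 1)) =
      (1 : Matrix (Fin n) (Fin n) k).submatrix (Equiv.swap v.1 v.2) id := by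
    ext i j
    by_cases hj : j = v.2
    · subst hj
      rw [Equiv.refl_apply, Matrix.updateCol_self, Equiv.refl_apply, Matrix.submatrix_apply, id,
        Matrix.one_apply, Pi.single_apply]
      by_cases hi : i = v.1
      · rw [hi, if_pos rfl, Equiv.swap_apply_left, if_pos rfl]
      · rw [if_neg hi, if_neg]
        intro h'
        apply hi
        exact (Equiv.swap v.1 v.2).injective (h'.trans (Equiv.swap_apply_left v.1 v.2).symm)
    · rw [Equiv.refl_apply, Matrix.updateCol_ne hj]
  rw [h2, Matrix.permanent_permute_cols, Matrix.permanent_one] at h1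
  exact zero_ne_one h1

theorem size_ge_sq {k : Type u} [Field k] {n : ℕ}
    (F : Formula (RatFunc k) (Fin n × Fin n))
    (hF : ∀ m, SpecializesTo (coeff m F.poly) (coeff m (perPoly n k))) : n ^ 2 ≤ F.size := by
  classical
  have hocc : ∀ v : Fin n × Fin n, 1 ≤ F.occ {v} := by
    intro v
    by_contra h
    have h0 : F.occ {v} = 0 := by omega
    have h1 := pderiv_of_occ v F h0
    obtain ⟨ψ, F', hF1, hF2⟩ := exists_lift (perPoly n k) F.poly hF
    have h2 : pderiv v F' = 0 := by
      have h3 : Function.Injective (algebraMap (PowerSeries k) (FractionRing (PowerSeries k))) :=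
        IsFractionRing.injective _ _
      apply MvPolynomial.map_injective _ h3
      rw [← pderiv_map, hF1, pderiv_map, h1, map_zero, map_zero]
    apply pderiv_perPoly_ne_zero (k := k) v
    rw [← hF2, pderiv_map, h2, map_zero]
  have hsum := Formula.sum_occ_le (univ : Finset (Fin n × Fin n)) (fun v => {v}) (by
    intro a _ b _ hab
    simpa [Function.onFun] using hab) F
  refine le_trans ?_ hsum
  calc n ^ 2 = ∑ _v : Fin n × Fin n, 1 := by simp [sq]
    _ ≤ _ := Finset.sum_le_sum fun v _ => hocc v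

theorem bound_large {k : Type u} [Field k] [CharZero k] {n s : ℕ} (hn : 32 ≤ n)
    (h : BorderFormulaLE (perPoly n k) s) :
    (n : ℝ) ^ 4 / (1024 * Real.logb 2 n) ≤ s := by
  obtain ⟨F, hFs, hF⟩ := h
  have ha5 : 5 ≤ Nat.log 2 n := Nat.le_log_of_pow_le (by norm_num) (by norm_num; exact hn)
  obtain ⟨l, hl⟩ := Nat.exists_eq_add_of_le' (show 2 ≤ Nat.log 2 n by omega)
  have h1 : 2 ^ (l + 2) ≤ n := hl ▸ Nat.pow_log_le_self 2 (by omega)
  have h2 : n < 2 ^ (l + 3) := by
    have := Nat.lt_pow_succ_log_self (b := 2) (by norm_num) n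
    rw [hl] at this
    exact this
  have hl3 : 3 ≤ l := by omega
  have h3 : l < 2 ^ l := Nat.lt_two_pow_self
  have h4 : 2 * l + 2 * 2 ^ l ≤ n := by
    rw [pow_add] at h1; omega
  have hlpos : 0 < 2 * l := by omega
  have h5 := size_bound (l := l) (Q := n / (2 * l)) (by omega) h4 (Nat.div_mul_le_self n (2 * l))
    F hF
  have h6 : n ≤ n / (2 * l) * (4 * l) := by
    have h7 : n < (n / (2 * l) + 1) * (2 * l) := by
      have := Nat.lt_div_mul_add (a := n) hlpos
      rw [add_mul, one_mul]; exact this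
    have h8 : 1 ≤ n / (2 * l) := (Nat.one_le_div_iff hlpos).2 (by omega)
    nlinarith
  have h9 : (n : ℝ) ^ 2 ≤ 256 * 4 ^ (l - 1) := by
    obtain ⟨l', rfl⟩ := Nat.exists_eq_add_of_le' (show 1 ≤ l by omega)
    rw [Nat.add_sub_cancel]
    have : n ^ 2 ≤ (2 ^ (l' + 1 + 3)) ^ 2 := Nat.pow_le_pow_left h2.le 2
    have h10 : (2 ^ (l' + 1 + 3)) ^ 2 = 256 * 4 ^ l' := by
      rw [← pow_mul, show (l' + 1 + 3) * 2 = 2 * l' + 8 by ring, pow_add, pow_mul]; norm_num
      ring
    rw [h10] at this
    exact_mod_cast this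
  have hlog : (l : ℝ) ≤ Real.logb 2 n := by
    have h11 := Real.natLog_le_logb n 2
    have h12 : (l : ℝ) ≤ (Nat.log 2 n : ℕ) := by rw [hl]; push_cast; linarith
    exact h12.trans (by exact_mod_cast h11)
  have hl0 : (0 : ℝ) < l := by exact_mod_cast (by omega : 0 < l)
  have hn0 : (0 : ℝ) < n := by exact_mod_cast (by omega : 0 < n)
  have h13 : ((n / (2 * l) : ℕ) : ℝ) * n * 4 ^ (l - 1) ≤ s := by
    have := h5.trans hFs
    exact_mod_cast this
  have h6' : (n : ℝ) ≤ ((n / (2 * l) : ℕ) : ℝ) * (4 * l) := by exact_mod_cast h6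
  have hlb : 0 < Real.logb 2 n := lt_of_lt_of_le hl0 hlog
  rw [div_le_iff₀ (mul_pos (by norm_num) hlb)]
  have h14 : (n : ℝ) ^ 4 ≤ s * (1024 * l) := by
    calc (n : ℝ) ^ 4 = n * n * n ^ 2 := by ring
      _ ≤ (((n / (2 * l) : ℕ) : ℝ) * (4 * l)) * n * (256 * 4 ^ (l - 1)) := by gcongr
      _ = (((n / (2 * l) : ℕ) : ℝ) * n * 4 ^ (l - 1)) * (1024 * l) := by ring
      _ ≤ s * (1024 * l) := by gcongr
  refine h14.trans ?_
  gcongr

theorem bound {k : Type u} [Field k] [CharZero k] {n s : ℕ} (hn : 2 ≤ n)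
    (h : BorderFormulaLE (perPoly n k) s) :
    (n : ℝ) ^ 4 / (1024 * Real.logb 2 n) ≤ s := by
  rcases Nat.lt_or_ge n 32 with hn32 | hn32
  · obtain ⟨F, hFs, hF⟩ := h
    have h1 := (size_ge_sq F hF).trans hFs
    have h1' : (n : ℝ) ^ 2 ≤ s := by exact_mod_cast h1
    refine le_trans ?_ h1'
    have hlog : 1 ≤ Real.logb 2 n := by
      rw [Real.le_logb_iff_rpow_le (by norm_num) (by positivity)]
      norm_num
      exact_mod_cast hn
    rw [div_le_iff₀ (by positivity)]
    have h2 : (n : ℝ) ^ 2 ≤ 1024 := by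
      have : (n : ℝ) ≤ 32 := by exact_mod_cast hn32.le
      nlinarith
    calc (n : ℝ) ^ 4 = n ^ 2 * n ^ 2 := by ring
      _ ≤ n ^ 2 * (1024 * Real.logb 2 n) := by
        gcongr
        nlinarith
  · exact bound_large hn32 h

/-- Mapping the constants of a formula. -/
def Formula.map {K : Type u} {K' : Type v} {σ : Type w} (φ : K → K') : Formula K σ → Formula K' σ
  | .var i => .var i
  | .const c => .const (φ c)
  | .add f g => .add (f.map φ) (g.map φ)
  | .sub f g => .sub (f.map φ) (g.map φ)
  | .mul f g => .mul (f.map φ) (g.map φ)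

theorem FormulaLE.border {k : Type u} [Field k] {σ : Type v} {f : MvPolynomial σ k} {s : ℕ}
    (h : FormulaLE f s) : BorderFormulaLE f s := by
  obtain ⟨F, hF, rfl⟩ := h
  refine ⟨F.map (algebraMap k (RatFunc k)), ?_, fun m => ?_⟩
  · refine le_trans (le_of_eq ?_) hF
    clear hF
    induction F with
    | var i => rfl
    | const c => rfl
    | add f g hf hg => simp only [Formula.map, Formula.size, hf, hg]
    | sub f g hf hg => simp only [Formula.map, Formula.size, hf, hg]
    | mul f g hf hg => simp only [Formula.map, Formula.size, hf, hg]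
  · have h1 : (F.map (algebraMap k (RatFunc k))).poly =
        MvPolynomial.map (algebraMap k (RatFunc k)) F.poly := by
      clear hF
      induction F with
      | var i => simp [Formula.map, Formula.poly]
      | const c => simp [Formula.map, Formula.poly]
      | add f g hf hg => simp only [Formula.map, Formula.poly, hf, hg, map_add]
      | sub f g hf hg => simp only [Formula.map, Formula.poly, hf, hg, map_sub]
      | mul f g hf hg => simp only [Formula.map, Formula.poly, hf, hg, map_mul]
    rw [h1, coeff_map]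
    refine ⟨Polynomial.C (coeff m F.poly), 1, by simp, ?_, by simp⟩
    rw [map_one, div_one, IsScalarTower.algebraMap_apply k (Polynomial k) (RatFunc k)]
    rfl

end Pool.Agent.FormPer
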