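import Pool.Agent.FormPer.Core
import Pool.Agent.FormPer.Final
import Pool.Agent.FormPer.DetPert

/-!
Assembly: in every determinantal representation of the permanent, exact or approximative, the ranks
of the coefficient matrices of the variables have a large sum.
-/

namespace Pool.Agent.FormPer

open MvPolynomial Finset Module
open Pool.Agent.H53.AC

universe u v w

theorem coeffMat_map {K : Type u} [CommSemiring K] {K' : Type v} [CommSemiring K'] {σ : Type*}
    {m : Type*} (φ : K →+* K') (A : Matrix m m (MvPolynomial σ K)) (v : σ) :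
    coeffMat (A.map (map φ)) v = (coeffMat A v).map φ := by
  ext1 i j
  change coeff (Finsupp.single v 1) (map φ (A i j)) = φ (coeff (Finsupp.single v 1) (A i j))
  rw [coeff_map]

theorem det_block {k : Type u} [Field k] [CharZero k] {n m : ℕ}
    (A : Matrix (Fin m) (Fin m) (MvPolynomial (Fin n × Fin n) (RatFunc k)))
    (hA : ∀ i j, (A i j).totalDegree ≤ 1)
    (hF : ∀ m, SpecializesTo (coeff m A.det) (coeff m (perPoly n k)))
    {L B B' : Type} [Fintype L] [DecidableEq L] [Fintype B] [DecidableEq B]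
    [Fintype B'] [DecidableEq B'] (ι : Finset L → B) (hι : Function.Injective ι)
    (ι' : Finset L → B') (hι' : Function.Injective ι')
    (eR eC : Fin n ≃ (L ⊕ B) ⊕ (L ⊕ B')) (Bl : Finset (Fin n × Fin n))
    (hBl : ∀ q : Fin n × Fin n, q ∈ Bl ↔ ∃ j : L ⊕ L, eR q.1 = Sum.map Sum.inl Sum.inl j ∧
      eC q.2 = Sum.map Sum.inl Sum.inl j) :
    4 ^ Fintype.card L ≤ (∑ v ∈ Bl, (coeffMat A v).rank) ^ 2 + 1 := by
  classical
  obtain ⟨ψ, pt, w, hpt, hw, hdet⟩ := block_core A.det hF ι hι ι' hι' eR eC Bl hBl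
  choose U V hUV using fun v => rank_fact (coeffMat A v)
  have hmap : map ψ A.det = (A.map (map ψ)).det := by
    rw [RingHom.map_det]; rfl
  rw [hmap] at hdet
  have h1 := det_kal (algebraMap (Polynomial (FractionRing (PowerSeries k)))
    (FractionRing (Polynomial (FractionRing (PowerSeries k))))) (IsFractionRing.injective _ _)
    (A.map (map ψ)) (fun i j => (totalDegree_map_le' ψ (A i j)).trans (hA i j)) Bl
    (fun v => (coeffMat A v).rank) (fun v => (U v).map ψ) (fun v => (V v).map ψ)
    (fun v _ => by rw [coeffMat_map, ← Matrix.map_mul, ← hUV v]) pt hpt w hw hdet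
  have h4 : Fintype.card (Finset L × Finset L) = 4 ^ Fintype.card L := by
    rw [Fintype.card_prod, Fintype.card_finset, ← pow_add, ← two_mul, pow_mul]
    norm_num
  rw [h4] at h1
  exact h1

/-- The combinatorial form. -/
theorem det_size_bound {k : Type u} [Field k] [CharZero k] {n m l Q : ℕ} (hl : 1 ≤ l)
    (hn : 2 * l + 2 * 2 ^ l ≤ n) (hQ : Q * (2 * l) ≤ n)
    (A : Matrix (Fin m) (Fin m) (MvPolynomial (Fin n × Fin n) (RatFunc k)))
    (hA : ∀ i j, (A i j).totalDegree ≤ 1)
    (hF : ∀ m, SpecializesTo (coeff m A.det) (coeff m (perPoly n k))) :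
    Q * n * 2 ^ l ≤ ∑ v, (coeffMat A v).rank := by
  classical
  have hn0 : NeZero n := ⟨by have := Nat.one_le_two_pow (n := l); omega⟩
  let L := Fin l
  let B := Finset L
  obtain ⟨z, hz⟩ := Nat.exists_eq_add_of_le hn
  let B' := Finset L ⊕ Fin z
  have hcardI : Fintype.card (Fin n) = Fintype.card ((L ⊕ B) ⊕ (L ⊕ B')) := by
    simp only [L, B, B', Fintype.card_sum, Fintype.card_fin, Fintype.card_finset]
    omega
  obtain ⟨j⟩ : Nonempty (Fin Q × (L ⊕ L) ↪ Fin n) := by
    apply Function.Embedding.nonempty_of_card_le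
    simp only [L, Fintype.card_prod, Fintype.card_sum, Fintype.card_fin]
    rw [← two_mul]; exact hQ
  have hg : Function.Injective (Sum.map (Sum.inl : L → L ⊕ B) (Sum.inl : L → L ⊕ B')) :=
    Sum.map_injective.2 ⟨Sum.inl_injective, Sum.inl_injective⟩
  have hext : ∀ q : Fin Q, ∃ e : Fin n ≃ (L ⊕ B) ⊕ (L ⊕ B'), ∀ i : L ⊕ L,
      e (j (q, i)) = Sum.map Sum.inl Sum.inl i := by
    intro q
    refine exists_extend hcardI (fun i => j (q, i)) _ ?_ hg
    intro i i' h
    exact (Prod.ext_iff.1 (j.injective h)).2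
  choose e he using hext
  let Bl : Fin Q × Fin n → Finset (Fin n × Fin n) := fun p =>
    univ.filter (fun q : Fin n × Fin n => ∃ i : L ⊕ L, q.1 = j (p.1, i) ∧ q.2 - p.2 = j (p.1, i))
  have hocc : ∀ p, 2 ^ l ≤ ∑ v ∈ Bl p, (coeffMat A v).rank := by
    intro p
    have h1 := det_block A hA hF (L := L) (B := B) (B' := B') (id : Finset L → B)
      Function.injective_id (Sum.inl : Finset L → B') Sum.inl_injective (e p.1)
      ((Equiv.subRight p.2).trans (e p.1)) (Bl p) (by
        intro q
        simp only [Bl, mem_filter, mem_univ, true_and, Equiv.trans_apply, Equiv.subRight_apply]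
        refine exists_congr fun i => ?_
        rw [← he p.1 i, (e p.1).apply_eq_iff_eq, (e p.1).apply_eq_iff_eq])
    rw [Fintype.card_fin] at h1
    by_contra hlt
    rw [not_le] at hlt
    have h2 : 2 ≤ 2 ^ l := by
      calc 2 = 2 ^ 1 := by norm_num
        _ ≤ 2 ^ l := Nat.pow_le_pow_right (by norm_num) hl
    have h3 : (4 : ℕ) ^ l = 2 ^ l * 2 ^ l := by rw [← mul_pow]; norm_num
    rw [h3] at h1
    generalize ∑ v ∈ Bl p, (coeffMat A v).rank = r at *
    generalize 2 ^ l = N at *
    have h4 : r ^ 2 ≤ (N - 1) ^ 2 := Nat.pow_le_pow_left (by omega) 2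
    obtain ⟨N', rfl⟩ := Nat.exists_eq_add_of_le' h2
    have h5 : N' + 2 - 1 = N' + 1 := by omega
    rw [h5] at h4
    nlinarith
  have hdisj : ((univ : Finset (Fin Q × Fin n)) : Set (Fin Q × Fin n)).PairwiseDisjoint Bl := by
    intro p _ p' _ hpp
    rw [Function.onFun, Finset.disjoint_left]
    intro q hq hq'
    simp only [Bl, mem_filter, mem_univ, true_and] at hq hq'
    obtain ⟨i, h1, h2⟩ := hq
    obtain ⟨i', h1', h2'⟩ := hq'
    have h3 := j.injective (h1.symm.trans h1')
    apply hpp
    refine Prod.ext (Prod.ext_iff.1 h3).1 ?_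
    have h4 : q.2 - p.2 = q.2 - p'.2 := by rw [h2, h2', ← h1, ← h1']
    exact sub_right_injective h4
  calc Q * n * 2 ^ l = ∑ _p : Fin Q × Fin n, 2 ^ l := by simp [Finset.sum_const]
    _ ≤ ∑ p : Fin Q × Fin n, ∑ v ∈ Bl p, (coeffMat A v).rank :=
        Finset.sum_le_sum fun p _ => hocc p
    _ = ∑ v ∈ univ.biUnion Bl, (coeffMat A v).rank := (Finset.sum_biUnion hdisj).symm
    _ ≤ ∑ v, (coeffMat A v).rank :=
        Finset.sum_le_sum_of_subset (Finset.subset_univ _)

theorem det_size_ge_sq {k : Type u} [Field k] {n m : ℕ}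
    (A : Matrix (Fin m) (Fin m) (MvPolynomial (Fin n × Fin n) (RatFunc k)))
    (hA : ∀ i j, (A i j).totalDegree ≤ 1)
    (hF : ∀ m, SpecializesTo (coeff m A.det) (coeff m (perPoly n k))) :
    n ^ 2 ≤ ∑ v, (coeffMat A v).rank := by
  classical
  have hocc : ∀ v : Fin n × Fin n, 1 ≤ (coeffMat A v).rank := by
    intro v
    by_contra h
    have h0 : (coeffMat A v).rank = 0 := by omega
    obtain ⟨U, V, hUV⟩ := rank_fact (coeffMat A v)
    have hz : coeffMat A v = 0 := by
      rw [hUV]
      ext1 i j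
      rw [Matrix.mul_apply, Matrix.zero_apply]
      refine Finset.sum_eq_zero fun l _ => ?_
      exact absurd l.2 (by omega)
    let S : Subalgebra (RatFunc k) (MvPolynomial (Fin n × Fin n) (RatFunc k)) :=
      { carrier := {f | pderiv v f = 0}
        mul_mem' := by
          intro a b ha hb
          change pderiv v (a * b) = 0
          have ha' : pderiv v a = 0 := ha
          have hb' : pderiv v b = 0 := hb
          rw [Derivation.leibniz, ha', hb', smul_zero, smul_zero, add_zero]
        add_mem' := by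
          intro a b ha hb
          change pderiv v (a + b) = 0
          have ha' : pderiv v a = 0 := ha
          have hb' : pderiv v b = 0 := hb
          rw [map_add, ha', hb', add_zero]
        algebraMap_mem' := by
          intro r
          change pderiv v (algebraMap _ _ r) = 0
          rw [MvPolynomial.algebraMap_eq, pderiv_C] }
    have h1 : pderiv v A.det = 0 := by
      have : A.det ∈ S := by
        refine det_mem_sub S A fun i j => ?_
        change pderiv v (A i j) = 0
        rw [affine_eq (A i j) (hA i j), map_add, pderiv_C, zero_add, map_sum]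
        refine Finset.sum_eq_zero fun v' _ => ?_
        rw [pderiv_C_mul]
        by_cases hv : v' = v
        · subst hv
          have : coeff (Finsupp.single v' 1) (A i j) = 0 := by
            have h2 := congrFun (congrFun hz i) j
            exact h2
          rw [this, C_0, zero_mul]
        · rw [pderiv_X_of_ne hv, mul_zero]
      exact this
    obtain ⟨ψ, F', hF1, hF2⟩ := exists_lift (perPoly n k) A.det hF
    have h2 : pderiv v F' = 0 := by
      have h3 : Function.Injective (algebraMap (PowerSeries k) (FractionRing (PowerSeries k))) :=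
        IsFractionRing.injective _ _
      apply MvPolynomial.map_injective _ h3
      rw [← pderiv_map, hF1, pderiv_map, h1, map_zero, map_zero]
    apply pderiv_perPoly_ne_zero (k := k) v
    rw [← hF2, pderiv_map, h2, map_zero]
  calc n ^ 2 = ∑ _v : Fin n × Fin n, 1 := by simp [sq]
    _ ≤ _ := Finset.sum_le_sum fun v _ => hocc v

theorem det_bound {k : Type u} [Field k] [CharZero k] {n s : ℕ} (hn : 2 ≤ n)
    (h : BorderDetRankLE (perPoly n k) s) :
    (n : ℝ) ^ 3 / (32 * Real.logb 2 n) ≤ s := by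
  obtain ⟨m, A, hA, hF, hs⟩ := h
  rcases Nat.lt_or_ge n 32 with hn32 | hn32
  · have h1 := (det_size_ge_sq A hA hF).trans hs
    have h1' : (n : ℝ) ^ 2 ≤ s := by exact_mod_cast h1
    refine le_trans ?_ h1'
    have hlog : 1 ≤ Real.logb 2 n := by
      rw [Real.le_logb_iff_rpow_le (by norm_num) (by positivity)]
      norm_num
      exact_mod_cast hn
    rw [div_le_iff₀ (by positivity)]
    have h2 : (n : ℝ) ≤ 32 := by exact_mod_cast hn32.le
    calc (n : ℝ) ^ 3 = n ^ 2 * n := by ring
      _ ≤ n ^ 2 * (32 * Real.logb 2 n) := by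
        gcongr
        nlinarith
  have ha5 : 5 ≤ Nat.log 2 n := Nat.le_log_of_pow_le (by norm_num) (by norm_num; exact hn32)
  obtain ⟨l, hl⟩ := Nat.exists_eq_add_of_le' (show 2 ≤ Nat.log 2 n by omega)
  have h1 : 2 ^ (l + 2) ≤ n := hl ▸ Nat.pow_log_le_self 2 (by omega)
  have h2 : n < 2 ^ (l + 3) := by
    have := Nat.lt_pow_succ_log_self (b := 2) (by norm_num) n
    rw [hl] at this
    exact this
  have hl3 : 3 ≤ l := by omega
  have h3 : l < 2 ^ l := Nat.lt_two_pow_self
  have h4 : 2 * l + 2 * 2 ^ l ≤ n := by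
    rw [pow_add] at h1; omega
  have hlpos : 0 < 2 * l := by omega
  have h5 := det_size_bound (l := l) (Q := n / (2 * l)) (by omega) h4
    (Nat.div_mul_le_self n (2 * l)) A hA hF
  have h6 : n ≤ n / (2 * l) * (4 * l) := by
    have h7 : n < (n / (2 * l) + 1) * (2 * l) := by
      have := Nat.lt_div_mul_add (a := n) hlpos
      rw [add_mul, one_mul]; exact this
    have h8 : 1 ≤ n / (2 * l) := (Nat.one_le_div_iff hlpos).2 (by omega)
    nlinarith
  have h9 : (n : ℝ) ≤ 8 * 2 ^ l := by
    have : n ≤ 8 * 2 ^ l := by rw [pow_add] at h2; omega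
    exact_mod_cast this
  have hlog : (l : ℝ) ≤ Real.logb 2 n := by
    have h11 := Real.natLog_le_logb n 2
    have h12 : (l : ℝ) ≤ (Nat.log 2 n : ℕ) := by rw [hl]; push_cast; linarith
    exact h12.trans (by exact_mod_cast h11)
  have hl0 : (0 : ℝ) < l := by exact_mod_cast (by omega : 0 < l)
  have hn0 : (0 : ℝ) < n := by exact_mod_cast (by omega : 0 < n)
  have h13 : ((n / (2 * l) : ℕ) : ℝ) * n * 2 ^ l ≤ s := by
    have := h5.trans hs
    exact_mod_cast this
  have h6' : (n : ℝ) ≤ ((n / (2 * l) : ℕ) : ℝ) * (4 * l) := by exact_mod_cast h6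
  have hlb : 0 < Real.logb 2 n := lt_of_lt_of_le hl0 hlog
  rw [div_le_iff₀ (mul_pos (by norm_num) hlb)]
  have h14 : (n : ℝ) ^ 3 ≤ s * (32 * l) := by
    calc (n : ℝ) ^ 3 = n * n * n := by ring
      _ ≤ (((n / (2 * l) : ℕ) : ℝ) * (4 * l)) * n * (8 * 2 ^ l) := by gcongr
      _ = (((n / (2 * l) : ℕ) : ℝ) * n * 2 ^ l) * (32 * l) := by ring
      _ ≤ s * (32 * l) := by gcongr
  refine h14.trans ?_
  gcongr

theorem DetRankLE.border {k : Type u} [Field k] {σ : Type v} [Fintype σ] {f : MvPolynomial σ k}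
    {s : ℕ} (h : DetRankLE f s) : BorderDetRankLE f s := by
  obtain ⟨m, A, hA, rfl, hs⟩ := h
  refine ⟨m, A.map (map (algebraMap k (RatFunc k))), fun i j =>
    (totalDegree_map_le' _ (A i j)).trans (hA i j), fun μ => ?_, ?_⟩
  · have h1 : (A.map (map (algebraMap k (RatFunc k)))).det =
        map (algebraMap k (RatFunc k)) A.det := by
      rw [RingHom.map_det]; rfl
    rw [h1, coeff_map]
    refine ⟨Polynomial.C (coeff μ A.det), 1, by simp, ?_, by simp⟩
    rw [map_one, div_one, IsScalarTower.algebraMap_apply k (Polynomial k) (RatFunc k)]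
    rfl
  · refine (Finset.sum_le_sum fun v _ => ?_).trans hs
    rw [coeffMat_map]
    obtain ⟨U, V, hUV⟩ := rank_fact (coeffMat A v)
    conv_lhs => rw [hUV, Matrix.map_mul]
    refine (Matrix.rank_mul_le_left _ _).trans ((Matrix.rank_le_card_width _).trans ?_)
    rw [Fintype.card_fin]

end Pool.Agent.FormPer
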