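import Pool.Agent.FormPer.DetAlg
import Pool.Agent.FormPer.DetDefs
import Pool.Agent.FormPer.Block

/-!
The rank of the gradients of a determinant along a block of variables.
-/

namespace Pool.Agent.FormPer

open MvPolynomial Module

universe u v w

section multi

variable {K : Type u} [Field K] {σ : Type v} [DecidableEq σ] {W : Type w} [Fintype W]

/-- The point `p`, with infinitesimal directions `w a`. -/
def zpt (p : σ → K) (w : W → σ) (i : σ) : TrivSqZeroExt K (W → K) :=
  TrivSqZeroExt.inl (p i) + TrivSqZeroExt.inr (fun a => if w a = i then 1 else 0)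

omit [Fintype W] in
theorem aeval_zpt (p : σ → K) (w : W → σ) (f : MvPolynomial σ K) :
    aeval (zpt p w) f = TrivSqZeroExt.inl (eval p f) +
      TrivSqZeroExt.inr (fun a => eval p (pderiv (w a) f)) := by
  induction f using MvPolynomial.induction_on with
  | C a =>
    rw [algHom_C, TrivSqZeroExt.algebraMap_eq_inl]
    have : (fun a_1 : W => eval p (pderiv (w a_1) (C a : MvPolynomial σ K))) = 0 := by
      funext b; simp
    rw [this]
    simp
  | add f g hf hg =>
    rw [map_add, hf, hg]
    ext
    · simp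
    · simp
  | mul_X f n hf =>
    rw [map_mul, hf, aeval_X]
    ext b
    · simp [zpt]
    · simp only [zpt, TrivSqZeroExt.snd_mul, TrivSqZeroExt.fst_add, TrivSqZeroExt.fst_inl,
        TrivSqZeroExt.fst_inr, TrivSqZeroExt.snd_add, TrivSqZeroExt.snd_inl,
        TrivSqZeroExt.snd_inr, add_zero, zero_add, op_smul_eq_smul, Pi.add_apply, Pi.smul_apply,
        smul_eq_mul, Derivation.leibniz, map_add, map_mul, eval_X]
      by_cases h : w b = n
      · rw [if_pos h, h, pderiv_X_self]; simp
      · rw [if_neg h, pderiv_X_of_ne (Ne.symm h)]; simp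

end multi

section affine

variable {K : Type u} [CommRing K] {σ : Type v} [Fintype σ] [DecidableEq σ]

theorem affine_eq (f : MvPolynomial σ K) (hf : f.totalDegree ≤ 1) :
    f = C (coeff 0 f) + ∑ v, C (coeff (Finsupp.single v 1) f) * X v := by
  ext m
  rw [coeff_add, coeff_sum, coeff_C]
  simp only [coeff_C_mul, coeff_X]
  by_cases h0 : m = 0
  · subst h0
    rw [if_pos rfl, Finset.sum_eq_zero, add_zero]
    intro v _
    rw [if_neg (by simp), mul_zero]
  rw [if_neg (Ne.symm h0), zero_add]
  by_cases h1 : ∃ v, m = Finsupp.single v 1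
  · obtain ⟨v, rfl⟩ := h1
    rw [Finset.sum_eq_single v]
    · rw [if_pos rfl, mul_one]
    · intro b _ hb
      rw [if_neg, mul_zero]
      intro h
      exact hb (Finsupp.single_left_injective one_ne_zero h)
    · simp
  · rw [Finset.sum_eq_zero]
    · apply coeff_eq_zero_of_totalDegree_lt
      refine lt_of_le_of_lt hf ?_
      by_contra hle
      rw [not_lt] at hle
      apply h1
      obtain ⟨v, hv⟩ := Finsupp.ne_iff.1 h0
      refine ⟨v, ?_⟩
      have hv' : 1 ≤ m v := Nat.one_le_iff_ne_zero.2 (by simpa using hv)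
      have hvs : v ∈ m.support := Finsupp.mem_support_iff.2 (by simpa using hv)
      have hsum : m v + ∑ i ∈ m.support.erase v, m i ≤ 1 := by
        rw [Finset.add_sum_erase m.support (fun i => m i) hvs]; exact hle
      ext i
      by_cases hi : i = v
      · subst hi; rw [Finsupp.single_eq_same]; omega
      · rw [Finsupp.single_eq_of_ne hi]
        by_contra hmi
        have his : i ∈ m.support.erase v :=
          Finset.mem_erase.2 ⟨hi, Finsupp.mem_support_iff.2 hmi⟩
        have := Finset.single_le_sum (f := fun i => m i) (fun _ _ => Nat.zero_le _) his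
        omega
    · intro v _
      rw [if_neg, mul_zero]
      intro h
      exact h1 ⟨v, h.symm⟩

end affine

section inv

variable {K : Type u} [Field K] {σ : Type v} [Fintype σ] [DecidableEq σ] {m : Type w} [Fintype m]
  [DecidableEq m]

theorem det_kal_inv (A : Matrix m m (MvPolynomial σ K)) (hA : ∀ i j, (A i j).totalDegree ≤ 1)
    (Bl : Finset σ) (ρ : σ → ℕ) (U : ∀ v, Matrix m (Fin (ρ v)) K) (V : ∀ v, Matrix (Fin (ρ v)) m K)
    (hUV : ∀ v ∈ Bl, coeffMat A v = U v * V v) {X : Type*} (y : σ → K) (hy : ∀ i ∈ Bl, y i = 0)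
    (pt : X → σ → K) (hpt : ∀ S, ∀ i ∉ Bl, pt S i = y i) {W : Type*} [Fintype W] (w : W → σ)
    (hw : ∀ a, w a ∉ Bl) (hinv : eval y A.det ≠ 0) :
    ∃ T : Submodule K (W → K), finrank K T ≤ (∑ v ∈ Bl, ρ v) ^ 2 + 1 ∧
      ∀ S, (fun a => eval (pt S) (pderiv (w a) A.det)) ∈ T := by
  classical
  let R := Σ v : {v // v ∈ Bl}, Fin (ρ v)
  have hR : Fintype.card R = ∑ v ∈ Bl, ρ v := by
    simp only [R, Fintype.card_sigma, Fintype.card_fin]
    exact Finset.sum_coe_sort Bl ρ
  let U' : Matrix m R K := Matrix.of fun i r => U r.1 i r.2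
  let V' : Matrix R m K := Matrix.of fun r j => V r.1 r.2 j
  let M0 : Matrix m m (TrivSqZeroExt K (W → K)) := A.map (aeval (zpt y w))
  have hdet : ∀ p : σ → K, (A.map (aeval (zpt p w))).det = aeval (zpt p w) A.det := by
    intro p
    rw [AlgHom.map_det]
    rfl
  have h0 : IsUnit M0.det := by
    rw [TrivSqZeroExt.isUnit_iff_isUnit_fst]
    simp only [M0]
    rw [hdet, aeval_zpt, TrivSqZeroExt.fst_add, TrivSqZeroExt.fst_inl, TrivSqZeroExt.fst_inr,
      add_zero]
    exact isUnit_iff_ne_zero.2 hinv
  obtain ⟨T, hT, hmem⟩ := det_space M0 h0 U' V'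
  refine ⟨T, by rw [hR] at hT; exact hT, fun S => ?_⟩
  let XS : Matrix R R K := Matrix.diagonal fun r => pt S r.1
  have h1 : A.map (aeval (zpt (pt S) w)) =
      M0 + (U' * XS * V').map (TrivSqZeroExt.inlHom K (W → K)) := by
    ext1 i j
    change aeval (zpt (pt S) w) (A i j) = aeval (zpt y w) (A i j) +
      TrivSqZeroExt.inlHom K (W → K) ((U' * XS * V') i j)
    have h2 : ∀ z : σ → TrivSqZeroExt K (W → K), aeval z (A i j) =
        algebraMap K _ (coeff 0 (A i j)) +
          ∑ v, algebraMap K _ (coeff (Finsupp.single v 1) (A i j)) * z v := by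
      intro z
      conv_lhs => rw [affine_eq (A i j) (hA i j)]
      simp
    rw [h2, h2, add_assoc, add_right_inj, ← sub_eq_iff_eq_add', ← Finset.sum_sub_distrib]
    have h3 : (U' * XS * V') i j = ∑ v ∈ Bl, coeff (Finsupp.single v 1) (A i j) * pt S v := by
      rw [Matrix.mul_apply]
      simp only [XS, Matrix.mul_diagonal, U', V', Matrix.of_apply]
      rw [Fintype.sum_sigma, ← Finset.sum_coe_sort Bl]
      refine Finset.sum_congr rfl fun v _ => ?_
      have h4 : coeff (Finsupp.single (v : σ) 1) (A i j) = (U v * V v) i j := by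
        rw [← hUV v v.2]; rfl
      rw [h4, Matrix.mul_apply, Finset.sum_mul]
      refine Finset.sum_congr rfl fun l _ => ?_
      ring
    rw [h3, map_sum, ← Finset.sum_subset (Finset.subset_univ Bl)]
    · refine Finset.sum_congr rfl fun v hv => ?_
      rw [← mul_sub, map_mul, TrivSqZeroExt.algebraMap_eq_inl]
      congr 1
      have h5 : (fun a => if w a = v then (1 : K) else 0) = 0 := by
        funext a
        have hne : ¬ w a = v := fun h => hw a (by rw [h]; exact hv)
        rw [if_neg hne]; rfl
      simp only [zpt, h5, hy v hv]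
      simp
    · intro v _ hv
      simp only [zpt, hpt S v hv, sub_self]
  have h6 := hmem XS
  rw [← h1, hdet, aeval_zpt] at h6
  simpa using h6

end inv

end Pool.Agent.FormPer
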