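import Pool.Agent.FormPer.Defs

/-!
Kalorkoti's method for formulas, in differential form: when only the variables of a block `B` move,
the gradients of the computed polynomial with respect to other variables span a space of dimension
at most `4 s + 1`, where `s` is the number of leaves labelled with variables in `B`.
-/

namespace Pool.Agent.FormPer

open MvPolynomial Module

universe u v w w'

section good

variable {L : Type u} {V : Type v} {X : Type w} [Field L] [AddCommGroup V] [Module L V]
  [FiniteDimensional L V]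

/-- Either the pair `(v, d)` is constant, or it is an affine function (over the dual numbers) of a
pair `(g₀, g₁)` with `g₁` in a space of dimension at most `4 s - 4`. -/
def Good (s : ℕ) (v : X → L) (d : X → V) : Prop :=
  (∃ c0 c1, ∀ x, v x = c0 ∧ d x = c1) ∨
  ∃ (U : Submodule L V) (a0 b0 : L) (a1 b1 : V) (g0 : X → L) (g1 : X → V),
    finrank L U + 4 ≤ 4 * s ∧ (∀ x, g1 x ∈ U) ∧
      ∀ x, v x = a0 * g0 x + b0 ∧ d x = a0 • g1 x + g0 x • a1 + b1

theorem Good.lin {s : ℕ} {v : X → L} {d : X → V} (h : Good s v d) (p q : L) (p1 q1 : V) :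
    Good s (fun x => p * v x + q) (fun x => p • d x + v x • p1 + q1) := by
  rcases h with ⟨c0, c1, h⟩ | ⟨U, a0, b0, a1, b1, g0, g1, hU, hg, h⟩
  · left
    exact ⟨p * c0 + q, p • c1 + c0 • p1 + q1, fun x => by
      dsimp only; rw [(h x).1, (h x).2]; exact ⟨rfl, rfl⟩⟩
  · right
    refine ⟨U, p * a0, p * b0 + q, p • a1 + a0 • p1, p • b1 + b0 • p1 + q1, g0, g1, hU, hg,
      fun x => ?_⟩
    dsimp only
    rw [(h x).1, (h x).2]
    constructor
    · ring
    · module

omit [FiniteDimensional L V] in
theorem good_of_mem {s : ℕ} (v : X → L) (d : X → V) (U : Submodule L V)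
    (hU : finrank L U + 4 ≤ 4 * s) (hd : ∀ x, d x ∈ U) : Good s v d := by
  right
  exact ⟨U, 1, 0, 0, 0, v, d, hU, hd, fun x => by simp⟩

omit [FiniteDimensional L V] in
theorem Good.congr {s : ℕ} {v v' : X → L} {d d' : X → V} (h : Good s v d)
    (hv : ∀ x, v x = v' x) (hd : ∀ x, d x = d' x) : Good s v' d' := by
  have h1 : v = v' := funext hv
  have h2 : d = d' := funext hd
  subst h1; subst h2
  exact h

omit [FiniteDimensional L V] in
theorem Good.mono {s t : ℕ} {v : X → L} {d : X → V} (h : Good s v d) (hst : s ≤ t) :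
    Good t v d := by
  rcases h with h | ⟨U, a0, b0, a1, b1, g0, g1, hU, hg, h⟩
  · exact Or.inl h
  · exact Or.inr ⟨U, a0, b0, a1, b1, g0, g1, by omega, hg, h⟩

theorem Good.mem {s : ℕ} {v : X → L} {d : X → V} (h : Good s v d) :
    (∃ c0 c1, ∀ x, v x = c0 ∧ d x = c1) ∨
      ∃ U : Submodule L V, finrank L U + 2 ≤ 4 * s ∧ ∀ x, d x ∈ U := by
  rcases h with h | ⟨U, a0, b0, a1, b1, g0, g1, hU, hg, h⟩
  · exact Or.inl h
  · right
    classical
    refine ⟨U ⊔ Submodule.span L (({a1, b1} : Finset V) : Set V), ?_, fun x => ?_⟩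
    · have h1 := Submodule.finrank_add_le_finrank_add_finrank U
        (Submodule.span L (({a1, b1} : Finset V) : Set V))
      have h2 := finrank_span_finset_le_card (R := L) ({a1, b1} : Finset V)
      have h3 := Finset.card_le_two (a := a1) (b := b1)
      have h4 : (Set.finrank L (({a1, b1} : Finset V) : Set V)) =
        finrank L (Submodule.span L (({a1, b1} : Finset V) : Set V)) := rfl
      omega
    · rw [(h x).2, add_assoc]
      refine Submodule.add_mem_sup (U.smul_mem _ (hg x)) ?_
      refine Submodule.add_mem _ (Submodule.smul_mem _ _ (Submodule.subset_span ?_))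
        (Submodule.subset_span ?_) <;> simp

theorem Good.final {s : ℕ} {v : X → L} {d : X → V} (h : Good s v d) :
    ∃ U : Submodule L V, finrank L U ≤ 4 * s + 1 ∧ ∀ x, d x ∈ U := by
  classical
  rcases h.mem with ⟨c0, c1, h⟩ | ⟨U, hU, h⟩
  · refine ⟨Submodule.span L (({c1} : Finset V) : Set V), ?_, fun x => ?_⟩
    · have h2 := finrank_span_finset_le_card (R := L) ({c1} : Finset V)
      have h4 : (Set.finrank L (({c1} : Finset V) : Set V)) =
        finrank L (Submodule.span L (({c1} : Finset V) : Set V)) := rfl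
      rw [Finset.card_singleton] at h2
      omega
    · rw [(h x).2]
      exact Submodule.subset_span (by simp)
  · exact ⟨U, by omega, h⟩

/-- Two nonconstant pairs. -/
theorem good_of_mem_sup {s t : ℕ} (v : X → L) (d : X → V) (U U' : Submodule L V)
    (hU : finrank L U + 2 ≤ 4 * s) (hU' : finrank L U' + 2 ≤ 4 * t)
    (hd : ∀ x, d x ∈ U ⊔ U') : Good (s + t) v d := by
  refine good_of_mem v d (U ⊔ U') ?_ hd
  have h1 := Submodule.finrank_add_le_finrank_add_finrank U U'
  omega

theorem Good.add {s t : ℕ} {v v' : X → L} {d d' : X → V} (h : Good s v d) (h' : Good t v' d') :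
    Good (s + t) (fun x => v x + v' x) (fun x => d x + d' x) := by
  rcases h.mem with ⟨c0, c1, hc⟩ | ⟨U, hU, hd⟩
  · refine ((h'.lin 1 c0 0 c1).mono (by omega : t ≤ s + t)).congr (fun x => ?_) (fun x => ?_)
    · rw [(hc x).1]; ring
    · rw [(hc x).2]; module
  rcases h'.mem with ⟨c0, c1, hc⟩ | ⟨U', hU', hd'⟩
  · refine ((h.lin 1 c0 0 c1).mono (by omega : s ≤ s + t)).congr (fun x => ?_) (fun x => ?_)
    · rw [(hc x).1]; ring
    · rw [(hc x).2]; module
  · exact good_of_mem_sup _ _ U U' hU hU' fun x => Submodule.add_mem_sup (hd x) (hd' x)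

theorem Good.mul {s t : ℕ} {v v' : X → L} {d d' : X → V} (h : Good s v d) (h' : Good t v' d') :
    Good (s + t) (fun x => v x * v' x) (fun x => v x • d' x + v' x • d x) := by
  rcases h.mem with ⟨c0, c1, hc⟩ | ⟨U, hU, hd⟩
  · refine ((h'.lin c0 0 c1 0).mono (by omega : t ≤ s + t)).congr (fun x => ?_) (fun x => ?_)
    · rw [(hc x).1]; ring
    · rw [(hc x).2, (hc x).1]; module
  rcases h'.mem with ⟨c0, c1, hc⟩ | ⟨U', hU', hd'⟩
  · refine ((h.lin c0 0 c1 0).mono (by omega : s ≤ s + t)).congr (fun x => ?_) (fun x => ?_)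
    · rw [(hc x).1]; ring
    · rw [(hc x).2, (hc x).1]; module
  · refine good_of_mem_sup _ _ U U' hU hU' fun x => ?_
    rw [add_comm]
    exact Submodule.add_mem_sup (U.smul_mem _ (hd x)) (U'.smul_mem _ (hd' x))

end good

/-- Kalorkoti's bound for formulas. -/
theorem kal {K : Type u} {L : Type v} [CommRing K] [Field L] (ψ : K →+* L) {σ : Type w}
    [DecidableEq σ] (B : Finset σ) {X : Type w'} (pt : X → σ → L)
    (hpt : ∀ i ∉ B, ∀ x x', pt x i = pt x' i) {A : Type*} [Fintype A] (w : A → σ)
    (hw : ∀ a, w a ∉ B) (F : Formula K σ) :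
    ∃ U : Submodule L (A → L), finrank L U ≤ 4 * F.occ B + 1 ∧
      ∀ x, (fun a => eval (pt x) (pderiv (w a) (map ψ F.poly))) ∈ U := by
  classical
  have key : Good (F.occ B) (fun x => eval (pt x) (map ψ F.poly))
      (fun x a => eval (pt x) (pderiv (w a) (map ψ F.poly))) := by
    induction F with
    | var i =>
      by_cases hi : i ∈ B
      · refine good_of_mem _ _ ⊥ (by simp [Formula.occ, hi]) fun x => ?_
        rw [Submodule.mem_bot]
        funext a
        have : w a ≠ i := fun h => hw a (h ▸ hi)
        simp [Formula.poly, pderiv_X_of_ne this.symm]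
      · left
        rcases isEmpty_or_nonempty X with hX | ⟨⟨x0⟩⟩
        · exact ⟨0, 0, fun x => (hX.false x).elim⟩
        · refine ⟨pt x0 i, fun a => if w a = i then 1 else 0, fun x => ⟨?_, ?_⟩⟩
          · simpa [Formula.poly] using hpt i hi x x0
          · funext a
            by_cases h : w a = i
            · simp [Formula.poly, h]
            · rw [if_neg h]
              simp [Formula.poly, pderiv_X_of_ne (Ne.symm h)]
    | const c =>
      left
      exact ⟨ψ c, 0, fun x => ⟨by simp [Formula.poly], by funext a; simp [Formula.poly]⟩⟩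
    | add f g hf hg =>
      refine (hf.add hg).congr (fun x => ?_) (fun x => ?_)
      · simp [Formula.poly]
      · funext a; simp [Formula.poly]
    | sub f g hf hg =>
      refine (hf.add (hg.lin (-1) 0 0 0)).congr (fun x => ?_) (fun x => ?_)
      · simp [Formula.poly]; ring
      · funext a; simp [Formula.poly]; ring
    | mul f g hf hg =>
      refine (hf.mul hg).congr (fun x => ?_) (fun x => ?_)
      · simp [Formula.poly]
      · funext a
        simp only [Formula.poly, Pi.add_apply, Pi.smul_apply, smul_eq_mul, map_mul,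
          Derivation.leibniz, map_add]
  exact key.final

end Pool.Agent.FormPer
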